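import Mathlib

/-!
# The irreducible components of `Spec A/p` for large `p`

Algebraically independent elements of a finitely generated domain of characteristic zero remain algebraically independent at
the generic points of `Spec A/p` for large `p`. (From the folders GP and DC of this problem, over Mathlib alone.)
-/

set_option autoImplicit false

namespace MPadcGT

open MvPolynomial

universe u v w

/-- In characteristic zero the generic point is étale. -/
theorem isEtaleAt_bot {R S : Type u} [CommRing R] [CommRing S] [Algebra R S] [IsDomain R]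
    [IsDomain S] [FaithfulSMul R S] [CharZero R] [Algebra.IsAlgebraic R S] :
    Algebra.IsEtaleAt R (⊥ : Ideal S) := by
  have : IsFractionRing S (Localization.AtPrime (⊥ : Ideal S)) := by
    simpa [Ideal.primeCompl_bot] using Localization.isLocalization (M := (⊥ : Ideal S).primeCompl)
  let : Field (Localization.AtPrime (⊥ : Ideal S)) := IsFractionRing.toField S
  have : FaithfulSMul R (Localization.AtPrime (⊥ : Ideal S)) := by
    rw [faithfulSMul_iff_algebraMap_injective,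
      IsScalarTower.algebraMap_eq R S (Localization.AtPrime ⊥)]
    exact (IsFractionRing.injective S _).comp (FaithfulSMul.algebraMap_injective R S)
  let := FractionRing.liftAlgebra R (Localization.AtPrime (⊥ : Ideal S))
  have h1 : Algebra.IsAlgebraic R (Localization.AtPrime (⊥ : Ideal S)) :=
    (IsFractionRing.isAlgebraic_iff' R S _).1 inferInstance
  have : Algebra.IsAlgebraic (FractionRing R) (Localization.AtPrime (⊥ : Ideal S)) :=
    IsFractionRing.comap_isAlgebraic_iff.1 h1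
  have : Algebra.FormallyEtale (FractionRing R) (Localization.AtPrime (⊥ : Ideal S)) :=
    Algebra.FormallyEtale.of_isSeparable _ _
  have : Algebra.FormallyEtale R (FractionRing R) :=
    Algebra.FormallyEtale.of_isLocalization (nonZeroDivisors R)
  exact Algebra.FormallyEtale.comp R (FractionRing R) (Localization.AtPrime ⊥)

/-- With going down outside of `V(f)`, the minimal primes over `𝔭` outside of `V(f)` lie over `𝔭`. -/
theorem comap_of_minimal {R A : Type u} [CommRing R] [CommRing A] [Algebra R A] (f : A)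
    [Algebra.HasGoingDown R (Localization.Away f)] (𝔭 : Ideal R) [𝔭.IsPrime] (𝔓 : Ideal A)
    (h𝔓 : 𝔓 ∈ (𝔭.map (algebraMap R A)).minimalPrimes) (hf : f ∉ 𝔓) :
    𝔓.comap (algebraMap R A) = 𝔭 := by
  have hpr : 𝔓.IsPrime := h𝔓.1.1
  have hdis : Disjoint ((Submonoid.powers f : Submonoid A) : Set A) (𝔓 : Set A) :=
    (Ideal.disjoint_powers_iff_notMem f hpr.isRadical).2 hf
  let S := Localization.Away f
  let Q : Ideal S := 𝔓.map (algebraMap A S)
  have hQ : Q.IsPrime := IsLocalization.isPrime_of_isPrime_disjoint (Submonoid.powers f) S 𝔓 hpr hdis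
  have hQc : Q.comap (algebraMap A S) = 𝔓 :=
    IsLocalization.under_map_of_isPrime_disjoint (Submonoid.powers f) S hpr hdis
  have hle : 𝔭 ≤ Q.comap (algebraMap R S) := by
    rw [IsScalarTower.algebraMap_eq R A S, ← Ideal.comap_comap, hQc]
    exact Ideal.map_le_iff_le_comap.1 h𝔓.1.2
  have hover : Q.LiesOver (Q.comap (algebraMap R S)) := ⟨rfl⟩
  obtain ⟨P, hPQ, hP, hPo⟩ := Ideal.exists_ideal_le_liesOver_of_le (p := 𝔭)
    (q := Q.comap (algebraMap R S)) Q hle
  have hPo' : 𝔭 = P.comap (algebraMap R S) := hPo.over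
  have h1 : P.comap (algebraMap A S) ≤ 𝔓 := by
    rw [← hQc]
    exact Ideal.comap_mono hPQ
  have h2 : 𝔭.map (algebraMap R A) ≤ P.comap (algebraMap A S) := by
    rw [Ideal.map_le_iff_le_comap, Ideal.comap_comap, ← IsScalarTower.algebraMap_eq R A S, ← hPo']
  have h3 : 𝔓 ≤ P.comap (algebraMap A S) := h𝔓.2 ⟨hP.comap _, h2⟩ h1
  have h4 : P.comap (algebraMap A S) = 𝔓 := le_antisymm h1 h3
  rw [← h4, Ideal.comap_comap, ← IsScalarTower.algebraMap_eq R A S, ← hPo']

/-- A nonzero element of a minimal prime over a principal ideal. -/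
theorem mem_minimal_of_mem {A : Type u} [CommRing A] [IsDomain A] [IsNoetherianRing A] {π b : A}
    (hb : b ≠ 0) {𝔓 : Ideal A} (h𝔓 : 𝔓 ∈ (Ideal.span {π}).minimalPrimes) (hmem : b ∈ 𝔓) :
    𝔓 ∈ (Ideal.span {b}).minimalPrimes := by
  have hpr : 𝔓.IsPrime := h𝔓.1.1
  refine ⟨⟨hpr, (Ideal.span_singleton_le_iff_mem _).2 hmem⟩, ?_⟩
  rintro 𝔮 ⟨h𝔮, hb𝔮⟩ hle
  by_contra hn
  have hlt : 𝔮 < 𝔓 := lt_of_le_not_ge hle hn
  have hbot : (⊥ : Ideal A) < 𝔮 := by
    rw [bot_lt_iff_ne_bot]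
    intro h
    rw [h, Ideal.span_singleton_le_iff_mem, Ideal.mem_bot] at hb𝔮
    exact hb hb𝔮
  have h1 : 𝔓.height ≤ 1 := Ideal.height_le_one_of_isPrincipal_of_mem_minimalPrimes _ 𝔓 h𝔓
  have h2 : (⊥ : Ideal A).IsPrime := Ideal.isPrime_bot
  have h3 := Ideal.height_add_one_le_of_lt_of_isPrime hbot
  have h4 := Ideal.height_add_one_le_of_lt_of_isPrime hlt
  have h5 : (1 : ℕ∞) + 1 ≤ 𝔓.height := by
    refine le_trans ?_ h4
    gcongr
    exact le_trans le_add_self h3
  have h6 : (1 : ℕ∞) + 1 ≤ 1 := h5.trans h1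
  exact absurd h6 (by decide)

/-- A bound for the primes `p` such that `b` lies in a minimal prime over `p`. -/
theorem exists_bound (A : Type u) [CommRing A] [IsDomain A] [IsNoetherianRing A] (b : A)
    (hb : b ≠ 0) : ∃ N : ℕ, ∀ p : ℕ, p.Prime → N < p →
      ∀ 𝔓 ∈ (Ideal.span {(p : A)}).minimalPrimes, b ∉ 𝔓 := by
  classical
  have hfin := Ideal.finite_minimalPrimes_of_isNoetherianRing A (Ideal.span {b})
  have h1 : ∀ 𝔓 : Ideal A, ∃ N : ℕ, 𝔓.IsPrime → ∀ p : ℕ, p.Prime → (p : A) ∈ 𝔓 → p ≤ N := by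
    intro 𝔓
    by_cases h : 𝔓.IsPrime ∧ ∃ q : ℕ, q.Prime ∧ (q : A) ∈ 𝔓
    · obtain ⟨h𝔓, q, hq, hqm⟩ := h
      refine ⟨q, fun _ p hp hpm => ?_⟩
      by_contra hn
      have hne : p ≠ q := by omega
      have hco : IsCoprime (p : ℤ) (q : ℤ) := Nat.isCoprime_iff_coprime.2
        ((Nat.coprime_primes hp hq).2 hne)
      obtain ⟨x, y, hxy⟩ := hco
      have h2 : (1 : A) = (x : A) * (p : A) + (y : A) * (q : A) := by
        have h3 := congrArg (Int.cast : ℤ → A) hxy
        push_cast at h3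
        exact h3.symm
      exact h𝔓.ne_top ((Ideal.eq_top_iff_one _).2 (by
        rw [h2]
        exact 𝔓.add_mem (𝔓.mul_mem_left _ hpm) (𝔓.mul_mem_left _ hqm)))
    · exact ⟨0, fun h𝔓 p hp hpm => absurd ⟨h𝔓, p, hp, hpm⟩ h⟩
  choose N hN using h1
  refine ⟨hfin.toFinset.sup N, fun p hp hlt 𝔓 h𝔓 hmem => ?_⟩
  have h2 := mem_minimal_of_mem hb h𝔓 hmem
  have h3 : p ≤ N 𝔓 := hN 𝔓 h𝔓.1.1 p hp (h𝔓.1.2 (Ideal.mem_span_singleton_self _))
  have h4 : N 𝔓 ≤ hfin.toFinset.sup N := Finset.le_sup (hfin.mem_toFinset.2 h2)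
  omega

private theorem Cmp_ker {A : Type u} [CommRing A] (Q : Ideal A) [Q.IsPrime] :
    RingHom.ker ((algebraMap (A ⧸ Q) (FractionRing (A ⧸ Q))).comp (Ideal.Quotient.mk Q)) = Q := by
  ext x
  rw [RingHom.mem_ker, RingHom.comp_apply, map_eq_zero_iff _ (IsFractionRing.injective (A ⧸ Q) _),
    Ideal.Quotient.eq_zero_iff_mem]

theorem exists_mod_p {A : Type u} [CommRing A] [IsDomain A] [CharZero A] [Algebra.FiniteType ℤ A] {X : Type u}
    [Finite X] (x : X → A) (hx : IsTranscendenceBasis ℤ x) :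
    ∃ p₀ : ℕ, ∀ p : ℕ, p.Prime → p₀ < p → ∀ 𝔓 ∈ (Ideal.span {(p : A)}).minimalPrimes,
      ∀ P : MvPolynomial X ℤ, aeval x P ∈ 𝔓 → (C (p : ℤ) : MvPolynomial X ℤ) ∣ P := by
  classical
  have hnoeth : IsNoetherianRing A := Algebra.FiniteType.isNoetherianRing ℤ A
  let R := MvPolynomial X ℤ
  let θ : R →ₐ[ℤ] A := MvPolynomial.aeval x
  have hθ : Function.Injective θ.toRingHom := hx.1
  let al : Algebra R A := θ.toRingHom.toAlgebra
  have hmap : (algebraMap R A) = θ.toRingHom := rfl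
  have hfaithR : FaithfulSMul R A := (faithfulSMul_iff_algebraMap_injective R A).2 hθ
  have htower : IsScalarTower ℤ R A := IsScalarTower.of_algebraMap_eq' (Subsingleton.elim _ _)
  have hftR : Algebra.FiniteType R A := Algebra.FiniteType.of_restrictScalars_finiteType ℤ R A
  have halg : Algebra.IsAlgebraic R A := by
    have h1 := hx.isAlgebraic
    have hran : Algebra.adjoin ℤ (Set.range x) = θ.range :=
      Algebra.adjoin_range_eq_range_aeval ℤ x
    constructor
    intro a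
    obtain ⟨P, hP, hPa⟩ := h1.isAlgebraic a
    let f : R →+* Algebra.adjoin ℤ (Set.range x) :=
      RingHom.codRestrict θ.toRingHom (Algebra.adjoin ℤ (Set.range x)) (fun y => by
        rw [hran]
        exact ⟨y, rfl⟩)
    have hsur : Function.Surjective f := by
      intro y
      have h2 : (y : A) ∈ θ.range := by
        rw [← hran]
        exact y.2
      obtain ⟨z, hz⟩ := h2
      exact ⟨z, Subtype.ext hz⟩
    obtain ⟨P', rfl⟩ := Polynomial.map_surjective f hsur P
    refine ⟨P', fun h => hP (by rw [h, Polynomial.map_zero]), ?_⟩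
    rw [← hPa, Polynomial.aeval_def, Polynomial.aeval_def, Polynomial.eval₂_map]
    rfl
  have hpres : Algebra.FinitePresentation R A := Algebra.FinitePresentation.of_finiteType.1 hftR
  have het : Algebra.IsEtaleAt R (⊥ : Ideal A) := isEtaleAt_bot
  obtain ⟨f, hf, hfe⟩ := Algebra.exists_etale_of_isEtaleAt (R := R) (⊥ : Ideal A)
  have hf0 : f ≠ 0 := fun h => hf (by rw [h]; exact Ideal.zero_mem _)
  obtain ⟨N, hN⟩ := exists_bound A f hf0
  refine ⟨N, fun p hp hB 𝔓 h𝔓 P hP => ?_⟩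
  have hfP : f ∉ 𝔓 := hN p hp hB 𝔓 h𝔓
  have h2 : ((p : ℕ) : R) = MvPolynomial.C ((p : ℕ) : ℤ) := by simp [R]
  have hprime : (Ideal.span {((p : ℕ) : R)}).IsPrime := by
    have h1 : Prime ((MvPolynomial.C ((p : ℕ) : ℤ)) : MvPolynomial X ℤ) :=
      (MvPolynomial.prime_C_iff X).2 (Nat.prime_iff_prime_int.1 hp)
    rw [h2]
    exact (Ideal.span_singleton_prime h1.ne_zero).2 h1
  have hmap' : (Ideal.span {((p : ℕ) : R)}).map (algebraMap R A) = Ideal.span {(p : A)} := by
    rw [Ideal.map_span, Set.image_singleton, map_natCast]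
  have hcomap : 𝔓.comap (algebraMap R A) = Ideal.span {((p : ℕ) : R)} := by
    have hflat : Module.Flat R (Localization.Away f) := inferInstance
    exact comap_of_minimal f (Ideal.span {((p : ℕ) : R)}) 𝔓 (by rw [hmap']; exact h𝔓) hfP
  have h3 : P ∈ 𝔓.comap (algebraMap R A) := hP
  rw [hcomap, Ideal.mem_span_singleton, h2] at h3
  exact h3

/-- Every element satisfies a polynomial equation over `ℤ[X]` with a coefficient that has a coefficient
that is not zero. -/
private theorem Cmp_poly {R : Type u} [CommRing R] [IsDomain R] [CharZero R] {X : Type u}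
    (x : X → R) (hx : IsTranscendenceBasis ℤ x) (r : R) :
    ∃ (P : Polynomial (MvPolynomial X ℤ)) (n : ℕ) (μ : X →₀ ℕ),
      P.eval₂ (aeval x : MvPolynomial X ℤ →ₐ[ℤ] R).toRingHom r = 0 ∧
      coeff μ (P.coeff n) ≠ 0 := by
  obtain ⟨Q, hQ, hQr⟩ := (hx.isAlgebraic).isAlgebraic r
  obtain ⟨n, hn⟩ : ∃ n, Q.coeff n ≠ 0 := by
    by_contra h
    push Not at h
    exact hQ (Polynomial.ext h)
  have hc : hx.1.aevalEquiv.symm (Q.coeff n) ≠ 0 := by
    intro h
    apply hn
    have h1 := congrArg hx.1.aevalEquiv h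
    rwa [AlgEquiv.apply_symm_apply, map_zero] at h1
  obtain ⟨μ, hμ⟩ := MvPolynomial.ne_zero_iff.1 hc
  refine ⟨Q.map (hx.1.aevalEquiv.symm : Algebra.adjoin ℤ (Set.range x) ≃ₐ[ℤ] MvPolynomial X ℤ).toRingEquiv.toRingHom,
    n, μ, ?_, ?_⟩
  · rw [Polynomial.eval₂_map]
    have h1 : (aeval x : MvPolynomial X ℤ →ₐ[ℤ] R).toRingHom.comp
        (hx.1.aevalEquiv.symm : Algebra.adjoin ℤ (Set.range x) ≃ₐ[ℤ] MvPolynomial X ℤ).toRingEquiv.toRingHom =
        algebraMap (Algebra.adjoin ℤ (Set.range x)) R := by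
      refine RingHom.ext fun a => ?_
      show aeval x (hx.1.aevalEquiv.symm a) = algebraMap (Algebra.adjoin ℤ (Set.range x)) R a
      rw [← hx.1.algebraMap_aevalEquiv, AlgEquiv.apply_symm_apply]
    rw [h1]
    exact hQr
  · rw [Polynomial.coeff_map]
    exact hμ

theorem alg_mod {R : Type u} [CommRing R] [IsDomain R] [CharZero R] [Algebra.FiniteType ℤ R] {X : Type u} [Finite X]
    (x : X → R) (hx : IsTranscendenceBasis ℤ x) :
    ∃ p₀ : ℕ, ∀ p : ℕ, p.Prime → p₀ < p → ∀ (k : Type u) [Field k] (φ : R →+* k),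
      (∀ P : MvPolynomial X ℤ, φ (aeval x P) = 0 → (C (p : ℤ) : MvPolynomial X ℤ) ∣ P) →
      ∀ r : R, IsAlgebraic ↥(φ.comp (aeval x : MvPolynomial X ℤ →ₐ[ℤ] R).toRingHom).range (φ r) := by
  classical
  choose P n μ hP hμ using Cmp_poly x hx
  obtain ⟨S, hS⟩ := (Algebra.FiniteType.out : (⊤ : Subalgebra ℤ R).FG)
  refine ⟨∑ r ∈ S, (coeff (μ r) ((P r).coeff (n r))).natAbs, ?_⟩
  intro p hp hp0 k _ φ hφ
  have hdom : IsDomain ↥(φ.comp (aeval x : MvPolynomial X ℤ →ₐ[ℤ] R).toRingHom).range := inferInstance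
  -- the generators
  have h1 : ∀ r ∈ S,
      IsAlgebraic ↥(φ.comp (aeval x : MvPolynomial X ℤ →ₐ[ℤ] R).toRingHom).range (φ r) := by
    intro r hr
    refine ⟨(P r).map (φ.comp (aeval x : MvPolynomial X ℤ →ₐ[ℤ] R).toRingHom).rangeRestrict,
      ?_, ?_⟩
    · intro h0
      have h2 := congrArg (fun Q => Q.coeff (n r)) h0
      simp only [Polynomial.coeff_map, Polynomial.coeff_zero] at h2
      have h3 : φ (aeval x ((P r).coeff (n r))) = 0 := congrArg Subtype.val h2
      obtain ⟨Q, hQ⟩ := hφ _ h3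
      have h4 : coeff (μ r) ((P r).coeff (n r)) = p * coeff (μ r) Q := by
        rw [hQ, coeff_C_mul]
      have h5 : (coeff (μ r) ((P r).coeff (n r))).natAbs ≤
          ∑ r ∈ S, (coeff (μ r) ((P r).coeff (n r))).natAbs :=
        Finset.single_le_sum (f := fun r => (coeff (μ r) ((P r).coeff (n r))).natAbs)
          (fun _ _ => Nat.zero_le _) hr
      have h6 : (coeff (μ r) ((P r).coeff (n r))).natAbs < p := lt_of_le_of_lt h5 hp0
      have h7 : p ∣ (coeff (μ r) ((P r).coeff (n r))).natAbs := by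
        rw [← Int.natCast_dvd]
        exact ⟨_, h4⟩
      have h8 : (coeff (μ r) ((P r).coeff (n r))).natAbs ≠ 0 := fun h => hμ r (Int.natAbs_eq_zero.1 h)
      exact absurd (Nat.le_of_dvd (Nat.pos_of_ne_zero h8) h7) (not_le.2 h6)
    · rw [Polynomial.aeval_def, Polynomial.eval₂_map]
      have h2 : (algebraMap ↥(φ.comp (aeval x : MvPolynomial X ℤ →ₐ[ℤ] R).toRingHom).range k).comp
          (φ.comp (aeval x : MvPolynomial X ℤ →ₐ[ℤ] R).toRingHom).rangeRestrict =
          φ.comp (aeval x : MvPolynomial X ℤ →ₐ[ℤ] R).toRingHom := RingHom.ext fun a => rfl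
      rw [h2, ← Polynomial.hom_eval₂, hP, map_zero]
  intro r
  have hr : r ∈ Algebra.adjoin ℤ (S : Set R) := by
    rw [hS]
    exact Algebra.mem_top
  induction hr using Algebra.adjoin_induction with
  | mem r hr => exact h1 r hr
  | algebraMap a =>
    have h2 : φ (algebraMap ℤ R a) =
        algebraMap ↥(φ.comp (aeval x : MvPolynomial X ℤ →ₐ[ℤ] R).toRingHom).range k a := by
      rw [eq_intCast, map_intCast, map_intCast]
    rw [h2]
    exact isAlgebraic_algebraMap _
  | add r s _ _ h h' =>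
    rw [map_add]
    exact h.add h'
  | mul r s _ _ h h' =>
    rw [map_mul]
    exact h.mul h'

theorem Cmp_dvd_rename {X Y : Type*} (j : X → Y) (hj : Function.Injective j) (c : ℤ) (P : MvPolynomial X ℤ)
    (h : (C c : MvPolynomial Y ℤ) ∣ rename j P) : (C c : MvPolynomial X ℤ) ∣ P := by
  rw [C_dvd_iff_dvd_coeff] at h ⊢
  intro m
  have h1 := h (m.mapDomain j)
  rwa [coeff_rename_mapDomain j hj] at h1

theorem Cmp_indep_range {σ T : Type*} {k : Type*} [Field k] (ψ : MvPolynomial T ℤ →+* k) (b : σ → k) (p : ℤ)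
    (hp : ψ (C p) = 0)
    (h : ∀ P : MvPolynomial (σ ⊕ T) ℤ, eval₂Hom ψ b (sumRingEquiv ℤ σ T P) = 0 →
      (C p : MvPolynomial (σ ⊕ T) ℤ) ∣ P) :
    AlgebraicIndependent ψ.range b := by
  rw [algebraicIndependent_iff]
  intro Q hQ
  obtain ⟨Q', rfl⟩ := MvPolynomial.map_surjective ψ.rangeRestrict ψ.rangeRestrict_surjective Q
  obtain ⟨P, rfl⟩ := (sumRingEquiv ℤ σ T).surjective Q'
  have h1 : eval₂Hom ψ b (sumRingEquiv ℤ σ T P) = 0 := by
    rw [← hQ, aeval_def, MvPolynomial.eval₂_map]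
    rfl
  obtain ⟨P', rfl⟩ := h P h1
  rw [map_mul, map_mul]
  have h2 : MvPolynomial.map ψ.rangeRestrict (sumRingEquiv ℤ σ T (C p)) = 0 := by
    have h3 : sumRingEquiv ℤ σ T (C p) = C (C p) := sumRingEquiv_C ℤ σ T p
    rw [h3, map_C]
    have h4 : ψ.rangeRestrict (C p) = 0 := Subtype.ext hp
    rw [h4, C_0]
  rw [h2, zero_mul]

theorem exists_indep {R₀ A : Type u} [CommRing R₀] [IsDomain R₀] [CharZero R₀] [Algebra.FiniteType ℤ R₀] [CommRing A]
    [IsDomain A] [CharZero A] [Algebra.FiniteType ℤ A] (ι : R₀ →+* A) (hι : Function.Injective ι) {σ : Type}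
    [Finite σ] (a : σ → A) (ha : Function.Injective (eval₂Hom ι a)) :
    ∃ p₀ : ℕ, ∀ p : ℕ, p.Prime → p₀ < p → ∀ 𝔓 ∈ (Ideal.span {(p : A)}).minimalPrimes,
      ∀ P : MvPolynomial σ R₀, eval₂Hom ι a P ∈ 𝔓 → ∀ m, ι (P.coeff m) ∈ 𝔓 := by
  classical
  let algA : Algebra R₀ A := ι.toAlgebra
  have : IsScalarTower ℤ R₀ A := IsScalarTower.of_algebraMap_eq' (Subsingleton.elim _ _)
  have hfaith : FaithfulSMul ℤ R₀ := inferInstance
  obtain ⟨T, hT⟩ := exists_isTranscendenceBasis ℤ R₀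
  have hTfin : Finite T := by
    rw [← Cardinal.lt_aleph0_iff_finite, hT.cardinalMk_eq_trdeg]
    exact trdeg_lt_aleph0_of_finiteType
  have haR : AlgebraicIndependent R₀ a := ha
  let y : σ ⊕ T → A := Sum.elim a (algebraMap R₀ A ∘ ((↑) : T → R₀))
  have hsum : AlgebraicIndependent ℤ y := hT.1.sumElim_comp haR
  obtain ⟨Y, hYs, hY⟩ := exists_isTranscendenceBasis_superset hsum.coe_range
  have hYfin : Finite Y := by
    rw [← Cardinal.lt_aleph0_iff_finite, hY.cardinalMk_eq_trdeg]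
    exact trdeg_lt_aleph0_of_finiteType
  let j : σ ⊕ T → Y := fun i => ⟨y i, hYs ⟨i, rfl⟩⟩
  have hj : Function.Injective j := by
    intro i i' h
    exact hsum.injective (congrArg Subtype.val h)
  obtain ⟨p₁, hp₁⟩ := exists_mod_p ((↑) : Y → A) hY
  obtain ⟨p₂, hp₂⟩ := alg_mod ((↑) : T → R₀) hT
  refine ⟨max p₁ p₂, fun p hp hpl 𝔓 h𝔓 P hP m => ?_⟩
  have hpr : 𝔓.IsPrime := h𝔓.1.1
  let k := FractionRing (A ⧸ 𝔓)
  let φ : A →+* k := (algebraMap (A ⧸ 𝔓) k).comp (Ideal.Quotient.mk 𝔓)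
  have hker : RingHom.ker φ = 𝔓 := Cmp_ker 𝔓
  have hzero : ∀ x : A, φ x = 0 ↔ x ∈ 𝔓 := fun x => by
    rw [← RingHom.mem_ker, hker]
  have hpP : (p : A) ∈ 𝔓 := h𝔓.1.2 (Ideal.subset_span rfl)
  -- (i)
  have h1 : ∀ Q : MvPolynomial (σ ⊕ T) ℤ, φ (aeval y Q) = 0 → (C (p : ℤ) : MvPolynomial (σ ⊕ T) ℤ) ∣ Q := by
    intro Q hQ
    refine Cmp_dvd_rename j hj _ Q ?_
    refine hp₁ p hp (lt_of_le_of_lt (le_max_left _ _) hpl) 𝔓 h𝔓 _ ?_
    rw [aeval_rename]
    exact (hzero _).1 hQ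
  -- (ii)
  have h2 : ∀ Q : MvPolynomial T ℤ, (φ.comp ι) (aeval ((↑) : T → R₀) Q) = 0 →
      (C (p : ℤ) : MvPolynomial T ℤ) ∣ Q := by
    intro Q hQ
    refine Cmp_dvd_rename (Sum.inr : T → σ ⊕ T) Sum.inr_injective _ Q ?_
    refine h1 _ ?_
    rw [aeval_rename]
    have h3 : aeval (y ∘ Sum.inr) Q = ι (aeval ((↑) : T → R₀) Q) := by
      have h4 := aeval_algebraMap_apply A ((↑) : T → R₀) Q
      exact h4
    rw [h3]
    exact hQ
  have h3 := hp₂ p hp (lt_of_le_of_lt (le_max_right _ _) hpl) k (φ.comp ι) h2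
  -- (iii)
  let ψ : MvPolynomial T ℤ →+* k :=
    (φ.comp ι).comp (aeval ((↑) : T → R₀) : MvPolynomial T ℤ →ₐ[ℤ] R₀).toRingHom
  have h4 : AlgebraicIndependent ψ.range (fun i => φ (a i)) := by
    refine Cmp_indep_range ψ _ (p : ℤ) ?_ ?_
    · have h5 : ψ (C (p : ℤ)) = φ (p : A) := by
        change φ (ι (aeval _ (C (p : ℤ)))) = _
        rw [aeval_C]
        simp
      rw [h5]
      exact (hzero _).2 hpP
    · intro Q hQ
      refine h1 Q ?_
      rw [← hQ]
      have h5 : φ.comp (aeval y : MvPolynomial (σ ⊕ T) ℤ →ₐ[ℤ] A).toRingHom =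
          (eval₂Hom ψ fun i => φ (a i)).comp (sumRingEquiv ℤ σ T).toRingHom := by
        refine MvPolynomial.ringHom_ext ?_ ?_
        · intro c
          simp
        · intro i
          rcases i with i | i
          · have h6 : sumRingEquiv ℤ σ T (X (Sum.inl i)) = X i := sumRingEquiv_X_inl ℤ σ T i
            change φ (aeval y (X (Sum.inl i))) = eval₂Hom ψ (fun i => φ (a i)) (sumRingEquiv ℤ σ T (X (Sum.inl i)))
            rw [h6, aeval_X, eval₂Hom_X']
            rfl
          · have h6 : sumRingEquiv ℤ σ T (X (Sum.inr i)) = C (X i) := sumRingEquiv_X_inr ℤ σ T i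
            change φ (aeval y (X (Sum.inr i))) = eval₂Hom ψ (fun i => φ (a i)) (sumRingEquiv ℤ σ T (X (Sum.inr i)))
            rw [h6, aeval_X, eval₂Hom_C]
            change _ = φ (ι (aeval _ (X i)))
            rw [aeval_X]
            rfl
      exact congrArg (fun f : MvPolynomial (σ ⊕ T) ℤ →+* k => f Q) h5
  -- (iv)
  have hle : ψ.range ≤ (φ.comp ι).range := by
    rintro _ ⟨Q, rfl⟩
    exact ⟨_, rfl⟩
  let algS : Algebra ψ.range (φ.comp ι).range := (Subring.inclusion hle).toAlgebra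
  have : IsScalarTower ψ.range (φ.comp ι).range k := IsScalarTower.of_algebraMap_eq fun x => rfl
  have : Algebra.IsAlgebraic ψ.range (φ.comp ι).range := by
    refine ⟨fun x => ?_⟩
    obtain ⟨x, r, rfl⟩ := x
    rw [← isAlgebraic_algHom_iff (IsScalarTower.toAlgHom ψ.range (φ.comp ι).range k) Subtype.val_injective]
    exact h3 r
  have h5 : AlgebraicIndependent (φ.comp ι).range (fun i => φ (a i)) := h4.extendScalars _
  have h6 : MvPolynomial.map (φ.comp ι).rangeRestrict P = 0 := by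
    refine (algebraicIndependent_iff.1 h5) _ ?_
    rw [aeval_def, MvPolynomial.eval₂_map]
    have h7 := (hzero _).2 hP
    rw [← h7, coe_eval₂Hom, MvPolynomial.hom_eval₂]
    rfl
  have h7 := congrArg (fun q => MvPolynomial.coeff m q) h6
  simp only [coeff_map, coeff_zero] at h7
  exact (hzero _).1 (congrArg Subtype.val h7)

end MPadcGT
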