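import Pool.Agent.Lib.MP_adc574_ag_OE.T4

/-!
# Almost all members of every Morse pencil over an algebraically closed field of large characteristic are ordinary

The theorem about the elements of the finite fields for pencils whose coefficients are in an arbitrary algebraically closed
field of large characteristic.
-/

set_option autoImplicit false

namespace MPadcGT

open MvPolynomial MPadcGM MPadcHM MPadcLZ MPadcBK MPadcOA MPadcOH

theorem few {m d : ℕ} (hm : 3 ≤ m) (hd : 3 ≤ d) (i₀ : Fin m) (ε : ℝ) (hε : 0 < ε) :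
    ∃ p₀ : ℕ, ∀ (p : ℕ) [Fact p.Prime], p₀ ≤ p → ∀ (k : Type) [Field k] [IsAlgClosed k] [CharP k p]
      (G : MvPolynomial (Fin m) k), G.IsHomogeneous d → MorseOver i₀ d G →
      ∀ r : ℕ, 0 < r → ∀ Z : Finset k, (∀ τ ∈ Z, τ ^ p ^ r = τ ∧ ¬ Gd p d (G - C τ * X i₀ ^ d)) →
        (Z.card : ℝ) ≤ ε * (p : ℝ) ^ r := by
  by_contra hcon
  push Not at hcon
  choose p hp hpn k ik ia ic G hG hM r hr Z hZ hbad using hcon
  have key : ∀ᶠ n in HF, ∀ r : ℕ, 0 < r → ∀ Z : Finset (k n),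
      (∀ τ ∈ Z, τ ^ p n ^ r = τ ∧ ¬ Gd (p n) d (G n - C τ * X i₀ ^ d)) → (Z.card : ℝ) ≤ ε * (p n : ℝ) ^ r := by
    rcases Nat.even_or_odd m with he | ho
    · refine MPadcOE.seq_badE ?_ he hd i₀ k p hpn G hG hM ε hε
      obtain ⟨r, hr⟩ := he
      omega
    · exact seq_bad hm ho hd i₀ k p hpn G hG hM ε hε
  obtain ⟨n, hn⟩ := key.exists
  exact absurd (hn (r n) (hr n) (Z n) (hZ n)) (not_le.2 (hbad n))

end MPadcGT
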