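import Pool.Agent.Lib.MP_adc574_ag_GT.Few
import Pool.Agent.Lib.MP_adc574_ag_BK.Spr
import Pool.Agent.Lib.MP_adc574_ag_BK.DescG
import Pool.Agent.Lib.MP_adc574_ag_GM.JacA

/-!
# The determinants under homomorphisms; spreading out of good hypersurfaces
-/

set_option autoImplicit false

namespace MPadcGT

open MvPolynomial MPadcGM MPadcHM MPadcLZ MPadcBK MPadcOA MPadcOH

theorem dj_map {R S : Type} [CommRing R] [CommRing S] (p : ℕ) [Fact p.Prime] [CharP R p] [CharP S p] (φ : R →+* S)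
    {m d : ℕ} (F : MvPolynomial (Fin m) R) (V : Finset (Fin m →₀ ℕ)) (c : V → (Fin m →₀ ℕ) → R) (j : ℕ) :
    dj p d (F.map φ) V (fun v e => φ (c v e)) j = φ (dj p d F V c j) := by
  classical
  unfold dj
  rw [RingHom.map_det]
  congr 1
  ext v u
  rw [Matrix.of_apply, RingHom.mapMatrix_apply, Matrix.map_apply, Matrix.of_apply, ← gf_map, map_monomial, map_one φ]

private theorem GdM_ell {m : ℕ} {R : Type*} [CommRing R] {V : Type*}
    (c : V → (Fin m →₀ ℕ) → R) (a : R) (v : V) (P : MvPolynomial (Fin m) R) :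
    ell (fun v e => a * c v e) v P = a * ell c v P := by
  rw [ell_eq_sum, ell_eq_sum, Finset.mul_sum]
  refine Finset.sum_congr rfl fun e _ => ?_
  ring

private theorem GdM_gam {m : ℕ} {R : Type*} [CommRing R] (p : ℕ) [Fact p.Prime] [CharP R p] {V : Type*} [Fintype V]
    [DecidableEq V] (F : MvPolynomial (Fin m) R) (c : V → (Fin m →₀ ℕ) → R) (a : R) (lv : V → ℕ) (v : V) (k : ℕ)
    (P : MvPolynomial (Fin m) R) :
    gam p F (fun v e => a * c v e) lv v k P = a ^ p * gam p F c lv v k P := by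
  rw [gam_apply, gam_apply]
  have h1 : (fun (v : V) (e : Fin m →₀ ℕ) => (a * c v e) ^ p) = fun v e => a ^ p * (c v e) ^ p := by
    funext v e
    rw [mul_pow]
  rw [h1, GdM_ell]

theorem dj_scale {R : Type} [CommRing R] (p : ℕ) [Fact p.Prime] [CharP R p]
    {m d : ℕ} (F : MvPolynomial (Fin m) R) (V : Finset (Fin m →₀ ℕ)) (c : V → (Fin m →₀ ℕ) → R) (a : R) (j : ℕ)
    (h0 : dj p d F V c j = 0) : dj p d F V (fun v e => a * c v e) j = 0 := by
  classical
  unfold dj at h0 ⊢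
  have h1 : (Matrix.of fun v u : {v : V // lvl d v.1 ≤ j} =>
      gf p d F V (fun v e => a * c v e) v.1 (monomial u.1.1 1)) =
      a ^ p • (Matrix.of fun v u : {v : V // lvl d v.1 ≤ j} => gf p d F V c v.1 (monomial u.1.1 1)) := by
    ext v u
    rw [Matrix.of_apply, Matrix.smul_apply, Matrix.of_apply, smul_eq_mul, gf_mono, gf_mono, one_mul, one_mul]
    split_ifs with hd
    · rw [GdM_gam]
      ring
    · rw [mul_zero]
  rw [h1, Matrix.det_smul, h0, mul_zero]

private theorem GdM_jac {R S : Type*} [CommRing R] [CommRing S] (φ : R →+* S) {m : ℕ} {F P : MvPolynomial (Fin m) R}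
    (h : P ∈ Ideal.span (Set.range fun j => pderiv j F)) :
    P.map φ ∈ Ideal.span (Set.range fun j => pderiv j (F.map φ)) := by
  obtain ⟨Q, hQ⟩ := Ideal.mem_span_range_iff_exists_fun.1 h
  rw [Ideal.mem_span_range_iff_exists_fun]
  refine ⟨fun j => (Q j).map φ, ?_⟩
  rw [← hQ, map_sum]
  refine Finset.sum_congr rfl fun j _ => ?_
  rw [map_mul, MvPolynomial.pderiv_map]

/-- Good hypersurfaces remain good over larger fields. -/
theorem Gd_map {k k' : Type} [Field k] [Field k'] (p : ℕ) [Fact p.Prime] [CharP k p] [CharP k' p] (ι : k →+* k')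
    {m d : ℕ} {F : MvPolynomial (Fin m) k} (h : Gd p d F) : Gd p d (F.map ι) := by
  obtain ⟨V, c, h, hh, hC, hs, hdj⟩ := h
  refine ⟨V, fun v e => ι (c v e), ι h, (map_ne_zero ι).2 hh, hC.map ι, fun i => ?_, fun j h1 h2 => ?_⟩
  · obtain ⟨N, hN⟩ := hs i
    refine ⟨N, ?_⟩
    have h3 := GdM_jac ι hN
    rwa [map_pow, map_X] at h3
  · rw [dj_map]
    exact (map_ne_zero ι).2 (hdj j h1 h2)

/-- A hypersurface over a domain which is good over an extension field is good at all points of a nonempty open set. -/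
theorem spread {B : Type} [CommRing B] [IsDomain B] (p : ℕ) [Fact p.Prime] [CharP B p] {κ : Type} [Field κ] [CharP κ p]
    (ι : B →+* κ) (hι : Function.Injective ι) {m d : ℕ} (F : MvPolynomial (Fin m) B) (hgd : Gd p d (F.map ι)) :
    ∃ f : B, f ≠ 0 ∧ ∀ (E : Type) [Field E] [CharP E p] (ψ : B →+* E), ψ f ≠ 0 → Gd p d (F.map ψ) := by
  classical
  obtain ⟨V, c, h, hh, hC, hs, hdj⟩ := hgd
  obtain ⟨h₀, c₀, hh₀, hC₀⟩ := exists_cdata_A ι hι hC hh
  have hιh : ι h₀ ≠ 0 := (map_ne_zero_iff ι hι).2 hh₀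
  have hc : c = fun v e => (h / ι h₀) * ι (c₀ v e) := by
    funext v e
    have h1 := CData.uniq hC (hC₀.map ι) v e
    field_simp
    rw [mul_comm (c v e)]
    exact h1
  have hD : ∀ j, 1 ≤ j → j ≤ m - 1 → dj p d F V c₀ j ≠ 0 := by
    intro j h1 h2 h0
    refine hdj j h1 h2 ?_
    rw [hc]
    refine dj_scale p (F.map ι) V (fun v e => ι (c₀ v e)) _ j ?_
    rw [dj_map, h0, map_zero]
  let _ : Algebra B κ := ι.toAlgebra
  have hsm : ∀ i : Fin m, ∃ (a : B) (M : ℕ), a ≠ 0 ∧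
      C a * (X i) ^ M ∈ Ideal.span (Set.range fun j : Fin m => pderiv j F) := by
    intro i
    obtain ⟨N, hN⟩ := hs i
    exact jac_descend (k := κ) (A := B) hι F i ⟨N, hN⟩
  choose a M ha hM using hsm
  refine ⟨h₀ * (∏ i, a i) * ∏ j ∈ Finset.Icc 1 (m - 1), dj p d F V c₀ j, ?_, ?_⟩
  · refine mul_ne_zero (mul_ne_zero hh₀ (Finset.prod_ne_zero_iff.2 fun i _ => ha i)) (Finset.prod_ne_zero_iff.2 ?_)
    intro j hj
    rw [Finset.mem_Icc] at hj
    exact hD j hj.1 hj.2
  · intro E _ _ ψ hψ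
    rw [map_mul, map_mul, map_prod, map_prod] at hψ
    have h1 := left_ne_zero_of_mul (left_ne_zero_of_mul hψ)
    have h2 := Finset.prod_ne_zero_iff.1 (right_ne_zero_of_mul (left_ne_zero_of_mul hψ))
    have h3 := Finset.prod_ne_zero_iff.1 (right_ne_zero_of_mul hψ)
    refine ⟨V, fun v e => ψ (c₀ v e), ψ h₀, h1, hC₀.map ψ, fun i => ⟨M i, ?_⟩, fun j hj1 hj2 => ?_⟩
    · have h4 := GdM_jac ψ (hM i)
      rw [map_mul, map_pow, map_X, map_C] at h4
      have h5 := Ideal.mul_mem_left _ (C (ψ (a i))⁻¹) h4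
      rwa [← mul_assoc, ← C_mul, inv_mul_cancel₀ (h2 i (Finset.mem_univ i)), C_1, one_mul] at h5
    · rw [dj_map]
      exact h3 j (Finset.mem_Icc.2 ⟨hj1, hj2⟩)

end MPadcGT
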