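import Pool.Agent.Lib.MP_adc574_ag_GT.Few
import Pool.Agent.Lib.MP_adc574_ag_PZ.FinH
import Pool.Agent.Lib.MP_adc574_ag_GM.Lift

/-!
# Points of finitely generated rings over finite fields
-/

set_option autoImplicit false

namespace MPadcGT

open Polynomial

private theorem pt_finite {A : Type*} [CommRing A] [Algebra.FiniteType ℤ A] (m : Ideal A)
    [hm : m.IsMaximal] {p : ℕ} (hp : p.Prime) (hpm : (p : A) ∈ m) : Finite (A ⧸ m) := by
  let _ := Ideal.Quotient.field m
  have h1 : Algebra.FiniteType ℤ (A ⧸ m) :=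
    Algebra.FiniteType.of_surjective (Ideal.Quotient.mkₐ ℤ m) (Ideal.Quotient.mkₐ_surjective ℤ m)
  have hj := MPadcGM.isJacobsonRing_int
  have h2 : Module.Finite ℤ (A ⧸ m) := finite_of_finite_type_of_isJacobsonRing ℤ (A ⧸ m)
  refine Module.finite_of_fg_torsion (A ⧸ m) ?_
  intro x
  refine ⟨⟨(p : ℤ), mem_nonZeroDivisors_of_ne_zero (by exact_mod_cast hp.ne_zero)⟩, ?_⟩
  show (p : ℤ) • x = 0
  have h3 : ((p : ℤ) : A ⧸ m) = 0 := by
    rw [Int.cast_natCast, ← map_natCast (Ideal.Quotient.mk m), Ideal.Quotient.eq_zero_iff_mem]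
    exact hpm
  rw [zsmul_eq_mul, h3, zero_mul]

/-- Closed points above a prime. -/
theorem exists_maxi {A : Type*} [CommRing A] [Algebra.FiniteType ℤ A] (Q : Ideal A)
    (hQ : Q.IsPrime) {p : ℕ} (hp : p.Prime) (hpQ : (p : A) ∈ Q) (c : A) (hc : c ∉ Q) :
    ∃ M : Ideal A, M.IsMaximal ∧ Q ≤ M ∧ c ∉ M ∧ Finite (A ⧸ M) := by
  have hjac := MPadcGM.isJacobsonRing_int
  have hjacA : IsJacobsonRing A := isJacobsonRing_of_finiteType (A := ℤ)
  have hjac2 : Q.jacobson = Q := hjacA.out hQ.isRadical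
  rw [← hjac2, Ideal.jacobson, Ideal.mem_sInf] at hc
  push Not at hc
  obtain ⟨m, ⟨hQm, hm⟩, hcm⟩ := hc
  exact ⟨m, hm, hQm, hcm, pt_finite m hp (hQm hpQ)⟩

/-- The finitely generated rings of characteristic zero have points over finite fields of every large characteristic. -/
theorem exists_pt {A : Type} [CommRing A] [IsDomain A] [CharZero A] [Algebra.FiniteType ℤ A] (a : A) (ha : a ≠ 0) :
    ∃ N : ℕ, ∀ p : ℕ, p.Prime → N < p → ∃ (E : Type) (_ : Field E) (φ : A →+* E), Finite E ∧ CharP E p ∧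
      Function.Surjective φ ∧ φ a ≠ 0 := by
  have hinj : Function.Injective (algebraMap ℤ A) := by
    intro x y h
    rw [eq_intCast, eq_intCast] at h
    exact Int.cast_injective h
  obtain ⟨h, hh0, hl⟩ := MPadcGM.exists_prime_lift (algebraMap ℤ A) hinj (RingHom.finiteType_algebraMap.2 inferInstance) a ha
  refine ⟨h.natAbs, fun p hp hlt => ?_⟩
  have hpz : Prime ((p : ℕ) : ℤ) := Nat.prime_iff_prime_int.1 hp
  have hprime : (Ideal.span {(p : ℤ)}).IsPrime := (Ideal.span_singleton_prime hpz.ne_zero).2 hpz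
  obtain ⟨Q, hQ, haQ, hQp⟩ := hl (Ideal.span {(p : ℤ)}) hprime (fun hm => by
    rw [Ideal.mem_span_singleton] at hm
    have h2 := Nat.le_of_dvd (Int.natAbs_pos.2 hh0) (Int.natCast_dvd.1 hm)
    omega)
  have hpQ : (p : A) ∈ Q := by
    have h1 : (p : ℤ) ∈ Q.comap (algebraMap ℤ A) := by
      rw [hQp]
      exact Ideal.mem_span_singleton_self _
    rw [Ideal.mem_comap, map_natCast] at h1
    exact h1
  obtain ⟨M, hM, hQM, haM, hfin⟩ := exists_maxi Q hQ hp hpQ a haQ
  let iF : Field (A ⧸ M) := Ideal.Quotient.field M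
  refine ⟨A ⧸ M, iF, Ideal.Quotient.mk M, hfin, ?_, Ideal.Quotient.mk_surjective, fun h1 =>
    haM (Ideal.Quotient.eq_zero_iff_mem.1 h1)⟩
  rw [CharP.charP_iff_prime_eq_zero hp, ← map_natCast (Ideal.Quotient.mk M), Ideal.Quotient.eq_zero_iff_mem]
  exact hQM hpQ

/-- The elements of the finite field with `p ^ r` elements. -/
theorem card_fix {k : Type} [Field k] [IsAlgClosed k] (p : ℕ) [Fact p.Prime] [CharP k p] (r : ℕ) (hr : 0 < r) :
    ∃ Y : Finset k, Y.card = p ^ r ∧ ∀ τ ∈ Y, τ ^ p ^ r = τ := by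
  classical
  have hp : p.Prime := Fact.out
  have h1 : 1 < p ^ r := Nat.one_lt_pow hr.ne' hp.one_lt
  have hsep : (X ^ (p ^ r) - X : k[X]).Separable := galois_poly_separable p _ (dvd_pow_self p hr.ne')
  have hdeg : (X ^ (p ^ r) - X : k[X]).natDegree = p ^ r := FiniteField.X_pow_card_sub_X_natDegree_eq k h1
  refine ⟨(X ^ (p ^ r) - X : k[X]).roots.toFinset, ?_, fun τ hτ => ?_⟩
  · rw [Multiset.toFinset_card_of_nodup (nodup_roots hsep)]
    have h2 := (IsAlgClosed.splits (X ^ (p ^ r) - X : k[X])).natDegree_eq_card_roots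
    rw [← h2, hdeg]
  · rw [Multiset.mem_toFinset, mem_roots (FiniteField.X_pow_card_sub_X_ne_zero k h1), IsRoot.def, eval_sub, eval_pow,
      eval_X, sub_eq_zero] at hτ
    exact hτ

end MPadcGT
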