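import Pool.Agent.Lib.MP_adc574_ag_GT.GdM
import Pool.Agent.Lib.MP_adc574_ag_GT.Pt

/-!
# The generic member of a Morse pencil in large characteristic

PROOF. `few` over the algebraic closure of `S(X)`, for the pencil through `G - X (X i₀) ^ d`: one of the members
`G - (X + n) (X i₀) ^ d`, `n` an integer, is good; the homomorphism to `κ` which maps `X + n` to the given transcendental element.
-/

set_option autoImplicit false

namespace MPadcGT

open MvPolynomial MPadcGM MPadcHM MPadcLZ MPadcBK MPadcOA MPadcOH MPadcPZ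

theorem gen {m d : ℕ} (hm : 3 ≤ m) (hd : 3 ≤ d) (i₀ : Fin m) :
    ∃ p₀ : ℕ, ∀ (p : ℕ) [Fact p.Prime], p₀ ≤ p → ∀ (S : Type) [CommRing S] [IsDomain S] [CharP S p]
      (G : MvPolynomial (Fin m) S), G.IsHomogeneous d →
      (∀ (k : Type) [Field k] [IsAlgClosed k] (j : S →+* k), Function.Injective j → MPadcPZ.MorseOver i₀ d (G.map j)) →
      ∀ (κ : Type) [Field κ] [IsAlgClosed κ] [CharP κ p] (χ : Polynomial S →+* κ), Function.Injective χ →
        Gd p d (G.map (χ.comp Polynomial.C) - C (χ Polynomial.X) * X i₀ ^ d) := by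
  classical
  obtain ⟨p₀, hp₀⟩ := few hm hd i₀ (1 / 2) (by norm_num)
  refine ⟨p₀, fun p hpF hle S _ _ _ G hG hmor κ _ _ _ χ hχ => ?_⟩
  have hp : p.Prime := Fact.out
  obtain ⟨K, iK, iac, a, ha, halg⟩ : ∃ (K : Type) (_ : Field K) (_ : IsAlgClosed K) (a : Polynomial S →+* K),
      Function.Injective a ∧ ∀ (χ' : Polynomial S →+* κ), Function.Injective χ' → ∃ ρ : K →+* κ, ρ.comp a = χ' := by
    refine ⟨AlgebraicClosure (FractionRing (Polynomial S)), inferInstance, inferInstance,
      (algebraMap (FractionRing (Polynomial S)) (AlgebraicClosure (FractionRing (Polynomial S)))).comp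
        (algebraMap (Polynomial S) (FractionRing (Polynomial S))), ?_, fun χ' hχ' => ?_⟩
    · exact (algebraMap (FractionRing (Polynomial S)) _).injective.comp (IsFractionRing.injective _ _)
    · let ρ₀ : FractionRing (Polynomial S) →+* κ := IsFractionRing.lift hχ'
      let _ : Algebra (FractionRing (Polynomial S)) κ := ρ₀.toAlgebra
      let ρ : AlgebraicClosure (FractionRing (Polynomial S)) →ₐ[FractionRing (Polynomial S)] κ := IsAlgClosed.lift
      refine ⟨ρ.toRingHom, RingHom.ext fun x => ?_⟩
      have h1 : ρ (algebraMap (FractionRing (Polynomial S)) _ (algebraMap (Polynomial S) _ x)) =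
          ρ₀ (algebraMap (Polynomial S) _ x) := ρ.commutes _
      have h2 : ρ₀ (algebraMap (Polynomial S) _ x) = χ' x := IsFractionRing.lift_algebraMap hχ' x
      exact h1.trans h2
  have hchK : CharP K p := charP_of_injective_ringHom ha p
  -- the pencil through the generic member
  have h1 : MPadcPZ.MorseOver i₀ d (G.map (a.comp Polynomial.C) + C (-a Polynomial.X) * X i₀ ^ d) :=
    morse_shift _ (hmor K (a.comp Polynomial.C) (ha.comp Polynomial.C_injective))
  have h2 : (G.map (a.comp Polynomial.C) + C (-a Polynomial.X) * X i₀ ^ d).IsHomogeneous d := by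
    refine (hG.map _).add ?_
    have h3 := (isHomogeneous_C (Fin m) (-a Polynomial.X)).mul (isHomogeneous_X_pow (R := K) i₀ d)
    rwa [zero_add] at h3
  obtain ⟨n, hn⟩ : ∃ n : ℕ, Gd p d (G.map (a.comp Polynomial.C) + C (-a Polynomial.X) * X i₀ ^ d - C (n : K) * X i₀ ^ d) := by
    by_contra hno
    push Not at hno
    have h3 := hp₀ p hle K _ h2 ⟨h1.inf, h1.lef⟩ 1 one_pos ((Finset.range p).image fun n : ℕ => (n : K)) (fun τ hτ => by
      obtain ⟨n, -, rfl⟩ := Finset.mem_image.1 hτ
      refine ⟨?_, hno n⟩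
      rw [pow_one, ← frobenius_def, map_natCast])
    rw [Finset.card_image_of_injOn, Finset.card_range, pow_one] at h3
    · have h4 : (0 : ℝ) < p := by exact_mod_cast hp.pos
      linarith
    · intro x hx y hy hxy
      rw [Finset.mem_coe, Finset.mem_range] at hx hy
      exact (CharP.natCast_injOn_Iio K p) hx hy hxy
  -- the homomorphism to `κ`
  obtain ⟨T, hT⟩ : ∃ T : Polynomial S →+* Polynomial S,
      T = (Polynomial.taylorAlgHom (-(n : S)) : Polynomial S →ₐ[S] Polynomial S).toRingHom := ⟨_, rfl⟩
  have hTi : Function.Injective T := by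
    rw [hT]
    exact Polynomial.taylor_injective _
  have hTC : T.comp Polynomial.C = Polynomial.C := by
    refine RingHom.ext fun x => ?_
    rw [hT]
    exact Polynomial.taylor_C _ _
  have hTX : T Polynomial.X = Polynomial.X + Polynomial.C (-(n : S)) := by
    rw [hT]
    exact Polynomial.taylor_X _
  obtain ⟨ρ, hρ⟩ := halg (χ.comp T) (hχ.comp hTi)
  have h5 := Gd_map p ρ hn
  have h6 : (G.map (a.comp Polynomial.C) + C (-a Polynomial.X) * X i₀ ^ d - C (n : K) * X i₀ ^ d).map ρ =
      G.map (χ.comp Polynomial.C) - C (χ Polynomial.X) * X i₀ ^ d := by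
    have h7 : ρ.comp (a.comp Polynomial.C) = χ.comp Polynomial.C := by
      rw [← RingHom.comp_assoc, hρ, RingHom.comp_assoc, hTC]
    have h8 : ρ (a Polynomial.X) = χ Polynomial.X - (n : κ) := by
      have h9 := congrArg (fun f : Polynomial S →+* κ => f Polynomial.X) hρ
      simp only [RingHom.comp_apply] at h9
      rw [h9, hTX, map_add]
      have h10 : χ (Polynomial.C (-(n : S))) = -(n : κ) := by
        rw [map_neg, map_neg, map_natCast, map_natCast]
      rw [h10, sub_eq_add_neg]
    rw [map_sub, map_add, map_mul, map_mul, map_pow, map_X, map_C, map_C, MvPolynomial.map_map, h7, map_neg, h8,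
      map_natCast]
    rw [neg_sub, C_sub]
    ring
  rw [h6] at h5
  exact h5

end MPadcGT
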