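import Pool.Agent.Lib.MP_adc574_ag_GT.Sp

/-!
# Hypersurfaces with a transcendental coefficient: the closed points with ordinary reduction are dense
-/

set_option autoImplicit false

namespace MPadcGT

open MvPolynomial NumberField MPadcGM MPadcHM MPadcLZ MPadcBK MPadcOA MPadcOH MPadcPZ MPadcPZ.Hyper

/-- The hypersurface `G = 0` over the ring `A` has good reduction at the maximal ideal `𝔭` as a hypersurface, which is
ordinary in the sense of Bloch and Kato. -/
def OrdinaryAt {A : Type} [CommRing A] {m : ℕ} (G : MvPolynomial (Fin m) A) (𝔭 : Ideal A) : Prop :=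
  ∃ (E : Type) (_ : Field E) (φ : A →+* E), Function.Surjective φ ∧ RingHom.ker φ = 𝔭 ∧
    Smooth (G.map φ) ∧ IsBlochKatoOrdinary (G.map φ)

/-- The closed points with ordinary reduction are dense: every nonempty open set `b ≠ 0` contains such points of every
large characteristic. -/
def DenseOrdinary {A : Type} [CommRing A] {m : ℕ} (F : MvPolynomial (Fin m) A) : Prop :=
  ∀ b : A, b ≠ 0 → ∃ N : ℕ, ∀ p : ℕ, p.Prime → N < p → ∃ 𝔭 : Ideal A, (p : A) ∈ 𝔭 ∧ b ∉ 𝔭 ∧ OrdinaryAt F 𝔭

/-- The form `F` over the subring `A` of the algebraically closed field `k` is a Morse function over `k`, and its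
coefficient of `X i₀ ^ d` is transcendental over a field which contains all other coefficients. -/
structure IsMorseTr {k : Type} [Field k] {m : ℕ} (i₀ : Fin m) (d : ℕ) (A : Subalgebra ℤ k)
    (F : MvPolynomial (Fin m) A) : Prop where
  /-- `F` has degree `d` -/
  hom : F.IsHomogeneous d
  /-- `F` is a Morse function -/
  morse : IsMorse i₀ (F.map (algebraMap A k))
  /-- the coefficient of `X i₀ ^ d` is transcendental over the other coefficients -/
  tr : ∃ k₀ : Subfield k, (∀ e, e ≠ Finsupp.single i₀ d → ((coeff e F : A) : k) ∈ k₀) ∧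
    Transcendental k₀ ((coeff (Finsupp.single i₀ d) F : A) : k)

/-- Almost all members of the linear systems with a Morse member over the number field `K` have ordinary reduction at a
share at least `1 - δ` of the maximal ideals of norm at most `z`, `z` large, if the heights are at most `z ^ B`. -/
def AlmostAll {m : ℕ} (i₀ : Fin m) (d : ℕ) (K : Type) [Field K] [NumberField K] (δ : ℝ) (B : ℕ) : Prop :=
  ∃ z₀ : ℕ, ∀ z : ℕ, z₀ ≤ z → ∀ (F : MvPolynomial (Fin m) (𝓞 K)) (S : Finset (Fin m →₀ ℕ)),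
    IsMorseSystem i₀ d F S → (∀ e, house ((coeff e F : 𝓞 K) : K) ≤ (z : ℝ) ^ B) →
    ∀ T : Finset (𝓞 K), (∀ t ∈ T, house (t : K) ≤ (z : ℝ) ^ B) →
      {c : S → 𝓞 K | (∀ e, c e ∈ T) ∧
        wtK K (OrdinaryAt (member F S c)) z < (1 - δ) * wtK K (fun _ => True) z}.ncard ≤
          z * T.card ^ (S.card - 1)

/-- The members of a Morse pencil over `R` for `t = - c` over an extension ring of `R`. -/
theorem lifted {R A : Type} [CommRing R] [IsDomain R] [CharZero R] [Algebra.FiniteType ℤ R] [CommRing A] [IsDomain A]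
    [Algebra.FiniteType ℤ A] {m d : ℕ} (hm : 3 ≤ m) (hd : 3 ≤ d) (i₀ : Fin m) (G : MvPolynomial (Fin m) R)
    (hG : G.IsHomogeneous d) (Ω : Type) [Field Ω] [IsAlgClosed Ω] (j : R →+* Ω) (hj : Function.Injective j)
    (hM : MPadcPZ.MorseOver i₀ d (G.map j)) (θ : Polynomial R →+* A) (hθ : Function.Injective θ)
    (F : MvPolynomial (Fin m) A) (hFh : F.IsHomogeneous d)
    (hF : F = G.map (θ.comp Polynomial.C) - C (θ Polynomial.X) * X i₀ ^ d) (b : A) (hb : b ≠ 0) :
    ∃ N : ℕ, ∀ p : ℕ, p.Prime → N < p → ∃ 𝔭 : Ideal A, (p : A) ∈ 𝔭 ∧ b ∉ 𝔭 ∧ OrdinaryAt F 𝔭 := by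
  have hnoeth : IsNoetherianRing R := Algebra.FiniteType.isNoetherianRing ℤ R
  have hft : θ.FiniteType := by
    refine RingHom.FiniteType.of_comp_finiteType (f := algebraMap ℤ (Polynomial R)) ?_
    have h1 : θ.comp (algebraMap ℤ (Polynomial R)) = algebraMap ℤ A := Subsingleton.elim _ _
    rw [h1, RingHom.finiteType_algebraMap]
    infer_instance
  obtain ⟨h, hh0, hl⟩ := MPadcGM.exists_prime_lift θ hθ hft b hb
  obtain ⟨N, hN⟩ := special hm hd i₀ G hG Ω j hj hM h hh0
  refine ⟨max N (d * m), fun p hp hlt => ?_⟩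
  have hpF : Fact p.Prime := ⟨hp⟩
  obtain ⟨κ, iκ, iac, ich, χ, hmax, hχh, hgd⟩ := hN p (lt_of_le_of_lt (le_max_left _ _) hlt)
  obtain ⟨Q, hQ, hbQ, hQc⟩ := hl (RingHom.ker χ) hmax.isPrime hχh
  have hpQ : (p : A) ∈ Q := by
    have h1 : (p : Polynomial R) ∈ Q.comap θ := by
      rw [hQc, RingHom.mem_ker, map_natCast]
      exact CharP.cast_eq_zero κ p
    rw [Ideal.mem_comap, map_natCast] at h1
    exact h1
  obtain ⟨M, hM', hQM, hbM, hfin⟩ := exists_maxi Q hQ hp hpQ b hbQ
  have hle : RingHom.ker χ ≤ M.comap θ := by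
    rw [← hQc]
    exact Ideal.comap_mono hQM
  have hMp : (M.comap θ).IsPrime := hM'.isPrime.comap θ
  have heq : RingHom.ker χ = M.comap θ := hmax.eq_of_le hMp.ne_top hle
  let iE : Field (A ⧸ M) := Ideal.Quotient.field M
  let iD : Field (Polynomial R ⧸ RingHom.ker χ) := Ideal.Quotient.field (RingHom.ker χ)
  let q : (Polynomial R ⧸ RingHom.ker χ) →+* A ⧸ M := Ideal.quotientMap M θ hle
  let aE : Algebra (Polynomial R ⧸ RingHom.ker χ) (A ⧸ M) := q.toAlgebra
  let aκ : Algebra (Polynomial R ⧸ RingHom.ker χ) κ := (RingHom.kerLift χ).toAlgebra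
  have hfinD : Module.Finite (Polynomial R ⧸ RingHom.ker χ) (A ⧸ M) := Module.Finite.of_finite
  have halg : Algebra.IsAlgebraic (Polynomial R ⧸ RingHom.ker χ) (A ⧸ M) := inferInstance
  let ι : (A ⧸ M) →ₐ[Polynomial R ⧸ RingHom.ker χ] κ := IsAlgClosed.lift
  have hι : ∀ x : Polynomial R, ι (Ideal.Quotient.mk M (θ x)) = χ x := by
    intro x
    exact ι.commutes (Ideal.Quotient.mk (RingHom.ker χ) x)
  have hpM : (p : A) ∈ M := hQM hpQ
  have hchE : CharP (A ⧸ M) p := by
    rw [CharP.charP_iff_prime_eq_zero hp, ← map_natCast (Ideal.Quotient.mk M), Ideal.Quotient.eq_zero_iff_mem]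
    exact hpM
  refine ⟨M, hpM, hbM, A ⧸ M, iE, Ideal.Quotient.mk M, Ideal.Quotient.mk_surjective, Ideal.mk_ker, ?_⟩
  obtain ⟨ι', hι'⟩ : ∃ ι' : (A ⧸ M) →+* κ, ι' = ι.toRingHom := ⟨_, rfl⟩
  have hι2 : ∀ x : Polynomial R, ι' (Ideal.Quotient.mk M (θ x)) = χ x := by
    intro x
    rw [hι']
    exact hι x
  have hcomp : (ι'.comp (Ideal.Quotient.mk M)).comp (θ.comp Polynomial.C) = χ.comp Polynomial.C :=
    RingHom.ext fun x => hι2 _
  have hFι : (F.map (Ideal.Quotient.mk M)).map ι' = G.map (χ.comp Polynomial.C) - C (χ Polynomial.X) * X i₀ ^ d := by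
    rw [hF, map_sub, map_sub, map_mul, map_mul, map_pow, map_pow, map_X, map_X, map_C, map_C, MvPolynomial.map_map,
      MvPolynomial.map_map, hι2, hcomp]
  rw [← hFι] at hgd
  obtain ⟨V, c, h', hh, hC, hs, hdj⟩ := hgd
  exact bk_of p ι' hm hd (lt_of_le_of_lt (le_max_right _ _) hlt) (F.map (Ideal.Quotient.mk M)) (hFh.map _) hh hC hs hdj

/-- Hypersurfaces of degree `d` whose coefficient of `X i₀ ^ d` is transcendental over a field which contains the other
coefficients. -/
theorem generic {m d : ℕ} (hm : 3 ≤ m) (hd : 3 ≤ d) (i₀ : Fin m) (k : Type) [Field k] [CharZero k] [IsAlgClosed k]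
    (A : Subalgebra ℤ k) (hA : A.FG) (F : MvPolynomial (Fin m) A) (hF : F.IsHomogeneous d)
    (hM : IsMorse i₀ (F.map (algebraMap A k))) (k₀ : Subfield k)
    (h₀ : ∀ e, e ≠ Finsupp.single i₀ d → ((coeff e F : A) : k) ∈ k₀)
    (ht : Transcendental k₀ ((coeff (Finsupp.single i₀ d) F : A) : k)) (b : A) (hb : b ≠ 0) :
    ∃ N : ℕ, ∀ p : ℕ, p.Prime → N < p → ∃ 𝔭 : Ideal A, (p : A) ∈ 𝔭 ∧ b ∉ 𝔭 ∧ OrdinaryAt F 𝔭 := by
  classical
  obtain ⟨c, hc⟩ : ∃ c : A, c = coeff (Finsupp.single i₀ d) F := ⟨_, rfl⟩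
  rw [← hc] at ht
  have hftA : Algebra.FiniteType ℤ A := A.fg_iff_finiteType.1 hA
  obtain ⟨S, hS⟩ : ∃ S : Finset A, S = (F.support.erase (Finsupp.single i₀ d)).image fun e => coeff e F := ⟨_, rfl⟩
  obtain ⟨R, hR⟩ : ∃ R : Subalgebra ℤ A, R = Algebra.adjoin ℤ (S : Set A) := ⟨_, rfl⟩
  have hRfg : R.FG := by
    rw [hR]
    exact Subalgebra.fg_adjoin_finset S
  have hftR : Algebra.FiniteType ℤ R := R.fg_iff_finiteType.1 hRfg
  have hczR : CharZero R := ((algebraMap A k).comp (algebraMap R A)).charZero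
  have hAk : Function.Injective (algebraMap A k) := FaithfulSMul.algebraMap_injective A k
  have hRA : Function.Injective (algebraMap R A) := Subtype.val_injective
  -- the other coefficients
  have hP : ∀ e, coeff e (F - C c * X i₀ ^ d) ∈ (algebraMap R A).range := by
    intro e
    rw [coeff_sub, coeff_C_mul, coeff_X_pow]
    by_cases he : Finsupp.single i₀ d = e
    · rw [if_pos he, ← he, hc, mul_one, sub_self]
      exact zero_mem _
    · rw [if_neg he, mul_zero, sub_zero]
      by_cases h1 : e ∈ F.support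
      · refine ⟨⟨coeff e F, ?_⟩, rfl⟩
        rw [hR]
        refine Algebra.subset_adjoin ?_
        rw [hS, Finset.mem_coe, Finset.mem_image]
        exact ⟨e, Finset.mem_erase.2 ⟨fun h => he h.symm, h1⟩, rfl⟩
      · rw [notMem_support_iff.1 h1]
        exact zero_mem _
  obtain ⟨G, hG⟩ : ∃ G : MvPolynomial (Fin m) R, G.map (algebraMap R A) = F - C c * X i₀ ^ d := by
    have h1 : F - C c * X i₀ ^ d ∈ Set.range (MvPolynomial.map (σ := Fin m) (algebraMap R A)) := by
      rw [mem_range_map_iff_coeffs_subset]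
      intro x hx
      obtain ⟨e, -, rfl⟩ := mem_coeffs_iff.1 hx
      exact hP e
    exact h1
  have hsub : (F - C c * X i₀ ^ d).IsHomogeneous d := by
    refine hF.sub ?_
    have h1 := (isHomogeneous_C (Fin m) c).mul (isHomogeneous_X_pow (R := A) i₀ d)
    rwa [zero_add] at h1
  have hGh : G.IsHomogeneous d := by
    intro e he
    have h1 : algebraMap R A (coeff e G) ≠ 0 := (map_ne_zero_iff _ hRA).2 he
    rw [← coeff_map, hG] at h1
    exact hsub h1
  -- the pencil is a Morse pencil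
  have hmor : MPadcPZ.MorseOver i₀ d (G.map ((algebraMap A k).comp (algebraMap R A))) := by
    have h1 := morse_shift (-(c : k)) (morse_over_of (d := d) (by omega) (hF.map _) hM)
    have h2 : G.map ((algebraMap A k).comp (algebraMap R A)) =
        F.map (algebraMap A k) + C (-(c : k)) * X i₀ ^ d := by
      rw [← MvPolynomial.map_map, hG, map_sub, map_mul, map_pow, map_X, map_C, map_neg, neg_mul, sub_eq_add_neg]
      rfl
    rw [h2]
    exact h1
  -- the coefficients of `G` are in `k₀`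
  have hRk : ∀ x : R, ((x : A) : k) ∈ k₀ := by
    rintro ⟨x, hx⟩
    rw [hR] at hx
    refine Algebra.adjoin_induction (p := fun y _ => ((y : A) : k) ∈ k₀) (fun y hy => ?_) (fun r => ?_)
      (fun y z _ _ hy hz => ?_) (fun y z _ _ hy hz => ?_) hx
    · rw [hS, Finset.mem_coe, Finset.mem_image] at hy
      obtain ⟨e, he, rfl⟩ := hy
      exact h₀ e (Finset.ne_of_mem_erase he)
    · have h1 : ((algebraMap ℤ A r : A) : k) = (r : k) := by
        rw [eq_intCast]
        push_cast
        rfl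
      rw [h1]
      exact intCast_mem k₀ r
    · push_cast
      exact add_mem hy hz
    · push_cast
      exact mul_mem hy hz
  obtain ⟨ρ, hρ⟩ : ∃ ρ : R →+* k₀, ∀ x, ((ρ x : k₀) : k) = ((x : A) : k) :=
    ⟨((algebraMap A k).comp (algebraMap R A)).codRestrict k₀ hRk, fun x => rfl⟩
  have hρi : Function.Injective ρ := by
    intro x y h
    have h1 := congrArg (fun z : k₀ => (z : k)) h
    simp only [hρ] at h1
    exact hRA (hAk h1)
  have ht' : Transcendental k₀ (-(c : k)) := fun h => ht (by simpa using h.neg)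
  obtain ⟨θ, hθ⟩ : ∃ θ : Polynomial R →+* A, θ = Polynomial.eval₂RingHom (algebraMap R A) (-c) := ⟨_, rfl⟩
  have hθk : ∀ P : Polynomial R, ((θ P : A) : k) = Polynomial.aeval (-(c : k)) (P.map ρ) := by
    intro P
    have h1 : ((θ P : A) : k) = algebraMap A k (Polynomial.eval₂ (algebraMap R A) (-c) P) := by
      rw [hθ]
      rfl
    have h2 : (algebraMap k₀ k).comp ρ = (algebraMap A k).comp (algebraMap R A) := RingHom.ext fun x => hρ x
    rw [h1, Polynomial.hom_eval₂, Polynomial.aeval_def, Polynomial.eval₂_map, map_neg, h2]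
    rfl
  have hθi : Function.Injective θ := by
    rw [injective_iff_map_eq_zero]
    intro P hP
    have h1 := hθk P
    rw [hP] at h1
    have h2 : P.map ρ = 0 := by
      by_contra h3
      exact ht' ⟨_, h3, h1.symm⟩
    exact (Polynomial.map_eq_zero_iff hρi).1 h2
  have hθC : θ.comp Polynomial.C = algebraMap R A := by
    rw [hθ]
    exact RingHom.ext fun x => Polynomial.eval₂_C _ _
  have hθX : θ Polynomial.X = -c := by
    rw [hθ]
    exact Polynomial.eval₂_X _ _
  refine lifted hm hd i₀ G hGh k _ (hAk.comp hRA) hmor θ hθi F hF ?_ b hb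
  rw [hθC, hθX, hG, map_neg, neg_mul, sub_neg_eq_add, sub_add_cancel]

end MPadcGT
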