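import Pool.Agent.Lib.MP_adc574_ag_PZ.FinH

/-!
# Forms with algebraically independent coefficients: the generic members of Morse systems
-/

set_option autoImplicit false

namespace MPadcGT

open MvPolynomial MPadcPZ MPadcPZ.Hyper

/-- The form `F` of degree `d` has coefficients in the subring `A` of the algebraically closed field `k`; its coefficients of
the monomials in `S` are algebraically independent over a field which contains all other coefficients, and `X i₀ ^ d` is in `S`.
If these coefficients are changed in a suitable way, the form becomes a Morse function; or its section with the hyperplane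
`X i₀ = 0` becomes smooth, and `S` contains all `X i₀ ^ (d - 1) * X l`. -/
structure IsGeneralMorse {k : Type} [Field k] {m : ℕ} (i₀ : Fin m) (d : ℕ) (A : Subalgebra ℤ k)
    (F : MvPolynomial (Fin m) A) (S : Finset (Fin m →₀ ℕ)) : Prop where
  /-- `F` has degree `d` -/
  hom : F.IsHomogeneous d
  /-- the constant coefficient of the affine equation is one of the independent ones -/
  pencil : Finsupp.single i₀ d ∈ S
  /-- the coefficients of the monomials in `S` are independent over the other ones -/
  indep : ∃ k₀ : Subfield k, (∀ e, e ∉ S → ((coeff e F : A) : k) ∈ k₀) ∧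
    AlgebraicIndependent k₀ fun e : S => ((coeff (e : Fin m →₀ ℕ) F : A) : k)
  /-- there is a good form with the same other coefficients -/
  good : ∃ c : S → k, IsMorse i₀ (member (F.map (algebraMap A k)) S c) ∨
    (IsTransversal i₀ (member (F.map (algebraMap A k)) S c) ∧
      ∀ l, l ≠ i₀ → Finsupp.single i₀ (d - 1) + Finsupp.single l 1 ∈ S)

section Field

variable {k : Type} [Field k] [CharZero k] [IsAlgClosed k] {m d : ℕ} {i₀ : Fin m} {k₀ : Subfield k}
  {F : MvPolynomial (Fin m) k} {S : Finset (Fin m →₀ ℕ)}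

/-- A form with independent coefficients is Morse if it is so after a change of these coefficients. -/
theorem sys_morse (hd : 2 ≤ d) (hF : F.IsHomogeneous d) (hk : ∀ e, e ∉ S → coeff e F ∈ k₀)
    (hi : AlgebraicIndependent k₀ fun e : S => coeff (e : Fin m →₀ ℕ) F)
    (hg : ∃ c : S → k, IsMorse i₀ (member F S c) ∨ (IsTransversal i₀ (member F S c) ∧
      ∀ l, l ≠ i₀ → Finsupp.single i₀ (d - 1) + Finsupp.single l 1 ∈ S)) : MPadcPZ.MorseOver i₀ d F := by
  classical
  have hS : ∀ e ∈ S, e.degree = d := by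
    intro e he
    have h1 : coeff e F ≠ 0 := hi.ne_zero ⟨e, he⟩
    have h2 := hF h1
    rwa [Finsupp.degree_eq_weight_one]
  -- the part with the coefficients in `k₀`
  obtain ⟨G₀, hG₀⟩ : ∃ G₀ : MvPolynomial (Fin m) k₀, G₀.map (algebraMap k₀ k) = F - ∑ e : S, monomial (e : Fin m →₀ ℕ) (coeff (e : Fin m →₀ ℕ) F) := by
    have h1 : F - ∑ e : S, monomial (e : Fin m →₀ ℕ) (coeff (e : Fin m →₀ ℕ) F) ∈
        Set.range (MvPolynomial.map (σ := Fin m) (algebraMap k₀ k)) := by
      rw [mem_range_map_iff_coeffs_subset]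
      intro x hx
      obtain ⟨e, -, rfl⟩ := mem_coeffs_iff.1 hx
      have h2 : coeff e F = coeff e (F - ∑ e : S, monomial (e : Fin m →₀ ℕ) (coeff (e : Fin m →₀ ℕ) F)) + if h : e ∈ S then coeff e F else 0 := by
        have h3 := coeff_mb (F - ∑ e : S, monomial (e : Fin m →₀ ℕ) (coeff (e : Fin m →₀ ℕ) F)) S (fun e => coeff (e : Fin m →₀ ℕ) F) e
        unfold mb at h3
        rw [sub_add_cancel] at h3
        exact h3
      by_cases he : e ∈ S
      · rw [dif_pos he] at h2
        have h4 : coeff e (F - ∑ e : S, monomial (e : Fin m →₀ ℕ) (coeff (e : Fin m →₀ ℕ) F)) = 0 := by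
          linear_combination -h2
        rw [h4]
        exact ⟨0, map_zero _⟩
      · rw [dif_neg he, add_zero] at h2
        rw [← h2]
        exact ⟨⟨_, hk e he⟩, rfl⟩
    exact h1
  have hinj : Function.Injective (algebraMap k₀ k) := (algebraMap k₀ k).injective
  have hsum : ∀ c : S → k, (∑ e : S, monomial (e : Fin m →₀ ℕ) (c e)).IsHomogeneous d := fun c =>
    IsHomogeneous.sum _ _ _ fun (e : S) _ => isHomogeneous_monomial _ (hS e e.2)
  have hG₀h : G₀.IsHomogeneous d := by
    intro e he
    have h1 : algebraMap k₀ k (coeff e G₀) ≠ 0 := (map_ne_zero_iff _ hinj).2 he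
    rw [← coeff_map, hG₀] at h1
    exact (hF.sub (hsum _)) h1
  -- the specialisations of the generic member
  have hsp : ∀ c : S → k, (gen G₀ S).map (eval₂Hom (algebraMap k₀ k) c) = member (G₀.map (algebraMap k₀ k)) S c := by
    intro c
    unfold gen mb member
    rw [map_add, MvPolynomial.map_map, map_sum]
    have h1 : (eval₂Hom (algebraMap k₀ k) c).comp C = algebraMap k₀ k := RingHom.ext fun r => eval₂_C _ _ _
    rw [h1]
    congr 1
    refine Finset.sum_congr rfl fun e _ => ?_
    rw [map_monomial]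
    congr 1
    exact eval₂_X _ _ _
  have hspF : ∀ c : S → k, member F S c = member (G₀.map (algebraMap k₀ k)) S (fun e => coeff (e : Fin m →₀ ℕ) F + c e) := by
    intro c
    unfold member
    rw [hG₀]
    simp only [map_add, Finset.sum_add_distrib]
    ring
  have hF0 : F = member (G₀.map (algebraMap k₀ k)) S (fun e => coeff (e : Fin m →₀ ℕ) F) := by
    unfold member
    rw [hG₀, sub_add_cancel]
  -- the homomorphism of `F`
  have hj : Function.Injective (eval₂Hom (algebraMap k₀ k) fun e : S => coeff (e : Fin m →₀ ℕ) F) := by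
    intro P Q h
    exact hi h
  rw [hF0, ← hsp]
  obtain ⟨c, hc | ⟨hc, h1⟩⟩ := hg
  · refine morse_of_special (by omega) (gen_hom G₀ S hG₀h hS)
      (eval₂Hom (algebraMap k₀ k) (fun e => coeff (e : Fin m →₀ ℕ) F + c e)) ?_ _ hj
    rw [hsp, ← hspF]
    refine morse_over_of (by omega) ?_ hc
    exact hF.add (hsum _)
  · have hGj : (gen G₀ S).map (jA k₀ S) = ((gen G₀ S).map (algebraMap (MvPolynomial S k₀)
        (FractionRing (MvPolynomial S k₀)))).map (algebraMap (FractionRing (MvPolynomial S k₀))
          (AlgebraicClosure (FractionRing (MvPolynomial S k₀)))) := by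
      rw [MvPolynomial.map_map]
      rfl
    have h2 : MPadcPZ.MorseOver i₀ d ((gen G₀ S).map (jA k₀ S)) := by
      rw [hGj]
      refine gen_morse _ hd hG₀h hS h1 ?_
      rw [← hGj]
      refine inf_of_special (gen_hom G₀ S hG₀h hS)
        (eval₂Hom (algebraMap k₀ k) (fun e => coeff (e : Fin m →₀ ℕ) F + c e)) ?_ (jA k₀ S) (jA_inj S)
      rw [hsp, ← hspF]
      exact hc
    exact morse_up (gen_hom G₀ S hG₀h hS) (jA k₀ S) _ (jA_inj S) hj h2

omit [CharZero k] [IsAlgClosed k] in
/-- One of the independent coefficients is transcendental over a field which contains all the other coefficients. -/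
theorem sys_tr (e₀ : Fin m →₀ ℕ) (he₀ : e₀ ∈ S) (hk : ∀ e, e ∉ S → coeff e F ∈ k₀)
    (hi : AlgebraicIndependent k₀ fun e : S => coeff (e : Fin m →₀ ℕ) F) :
    ∃ k₁ : Subfield k, (∀ e, e ≠ e₀ → coeff e F ∈ k₁) ∧ Transcendental k₁ (coeff e₀ F) := by
  classical
  obtain ⟨x, hx⟩ : ∃ x : S → k, x = fun e : S => coeff (e : Fin m →₀ ℕ) F := ⟨_, rfl⟩
  obtain ⟨ι₀, hι₀⟩ : ∃ ι₀ : S, ι₀ = ⟨e₀, he₀⟩ := ⟨_, rfl⟩
  have hx0 : x ι₀ = coeff e₀ F := by rw [hx, hι₀]
  rw [← hx] at hi
  obtain ⟨T, hT⟩ : ∃ T : Set k, T = x '' {ι₀}ᶜ := ⟨_, rfl⟩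
  have h1 : Transcendental (Algebra.adjoin k₀ T) (x ι₀) := by
    rw [hT]
    exact hi.transcendental_adjoin (fun h => h rfl)
  rw [← hx0]
  have h2 : Transcendental (IntermediateField.adjoin k₀ T) (x ι₀) :=
    IntermediateField.transcendental_adjoin_iff.2 h1
  refine ⟨(IntermediateField.adjoin k₀ T).toSubfield, fun e he => ?_, h2⟩
  by_cases h : e ∈ S
  · refine IntermediateField.subset_adjoin k₀ T ?_
    rw [hT]
    refine ⟨⟨e, h⟩, fun h3 => ?_, by rw [hx]⟩
    rw [hι₀] at h3
    exact he (congrArg Subtype.val h3)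
  · exact (IntermediateField.adjoin k₀ T).algebraMap_mem ⟨_, hk e h⟩

end Field

end MPadcGT
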