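import Pool.Agent.Lib.MP_adc574_ag_GT.Opn
import Pool.Agent.Lib.MP_adc574_ag_GT.Sy

/-!
# General members of Morse systems: ordinary reduction over dense open subsets of the fibres of `Spec A`
-/

set_option autoImplicit false

namespace MPadcGT

open MvPolynomial NumberField MPadcGM MPadcHM MPadcLZ MPadcBK MPadcOA MPadcOH MPadcPZ MPadcPZ.Hyper

/-- For every large prime `p` the fibre `Spec A/p` is not empty, and every irreducible component of it contains a dense open
subset such that the hypersurface `F = 0` has good ordinary reduction at all closed points of this subset. -/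
def OpenOrdinary {A : Type} [CommRing A] {m : ℕ} (F : MvPolynomial (Fin m) A) : Prop :=
  ∃ N : ℕ, ∀ p : ℕ, p.Prime → N < p → (∃ 𝔓, 𝔓 ∈ (Ideal.span {(p : A)}).minimalPrimes) ∧
    ∀ 𝔓 ∈ (Ideal.span {(p : A)}).minimalPrimes,
      ∃ f ∉ 𝔓, ∀ 𝔫 : Ideal A, 𝔫.IsMaximal → 𝔓 ≤ 𝔫 → f ∉ 𝔫 → OrdinaryAt F 𝔫

/-- Members of Morse pencils of degree `d` whose coefficient of `X i₀ ^ d` is transcendental over a field which contains the
other coefficients. -/
theorem generic_open {m d : ℕ} (hm : 3 ≤ m) (hd : 3 ≤ d) (i₀ : Fin m) (k : Type) [Field k] [CharZero k] [IsAlgClosed k]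
    (A : Subalgebra ℤ k) (hA : A.FG) (F : MvPolynomial (Fin m) A) (hF : F.IsHomogeneous d)
    (hM : MPadcPZ.MorseOver i₀ d (F.map (algebraMap A k))) (k₀ : Subfield k)
    (h₀ : ∀ e, e ≠ Finsupp.single i₀ d → ((coeff e F : A) : k) ∈ k₀)
    (ht : Transcendental k₀ ((coeff (Finsupp.single i₀ d) F : A) : k)) :
    ∃ N : ℕ, ∀ p : ℕ, p.Prime → N < p → ∀ 𝔓 ∈ (Ideal.span {(p : A)}).minimalPrimes,
      ∃ f ∉ 𝔓, ∀ 𝔫 : Ideal A, 𝔫.IsMaximal → 𝔓 ≤ 𝔫 → f ∉ 𝔫 → OrdinaryAt F 𝔫 := by
  classical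
  obtain ⟨c, hc⟩ : ∃ c : A, c = coeff (Finsupp.single i₀ d) F := ⟨_, rfl⟩
  rw [← hc] at ht
  have hftA : Algebra.FiniteType ℤ A := A.fg_iff_finiteType.1 hA
  obtain ⟨S, hS⟩ : ∃ S : Finset A, S = (F.support.erase (Finsupp.single i₀ d)).image fun e => coeff e F := ⟨_, rfl⟩
  obtain ⟨R, hR⟩ : ∃ R : Subalgebra ℤ A, R = Algebra.adjoin ℤ (S : Set A) := ⟨_, rfl⟩
  have hRfg : R.FG := by
    rw [hR]
    exact Subalgebra.fg_adjoin_finset S
  have hftR : Algebra.FiniteType ℤ R := R.fg_iff_finiteType.1 hRfg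
  have hczR : CharZero R := ((algebraMap A k).comp (algebraMap R A)).charZero
  have hAk : Function.Injective (algebraMap A k) := FaithfulSMul.algebraMap_injective A k
  have hRA : Function.Injective (algebraMap R A) := Subtype.val_injective
  -- the other coefficients
  have hP : ∀ e, coeff e (F - C c * X i₀ ^ d) ∈ (algebraMap R A).range := by
    intro e
    rw [coeff_sub, coeff_C_mul, coeff_X_pow]
    by_cases he : Finsupp.single i₀ d = e
    · rw [if_pos he, ← he, hc, mul_one, sub_self]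
      exact zero_mem _
    · rw [if_neg he, mul_zero, sub_zero]
      by_cases h1 : e ∈ F.support
      · refine ⟨⟨coeff e F, ?_⟩, rfl⟩
        rw [hR]
        refine Algebra.subset_adjoin ?_
        rw [hS, Finset.mem_coe, Finset.mem_image]
        exact ⟨e, Finset.mem_erase.2 ⟨fun h => he h.symm, h1⟩, rfl⟩
      · rw [notMem_support_iff.1 h1]
        exact zero_mem _
  obtain ⟨G, hG⟩ : ∃ G : MvPolynomial (Fin m) R, G.map (algebraMap R A) = F - C c * X i₀ ^ d := by
    have h1 : F - C c * X i₀ ^ d ∈ Set.range (MvPolynomial.map (σ := Fin m) (algebraMap R A)) := by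
      rw [mem_range_map_iff_coeffs_subset]
      intro x hx
      obtain ⟨e, -, rfl⟩ := mem_coeffs_iff.1 hx
      exact hP e
    exact h1
  have hsub : (F - C c * X i₀ ^ d).IsHomogeneous d := by
    refine hF.sub ?_
    have h1 := (isHomogeneous_C (Fin m) c).mul (isHomogeneous_X_pow (R := A) i₀ d)
    rwa [zero_add] at h1
  have hGh : G.IsHomogeneous d := by
    intro e he
    have h1 : algebraMap R A (coeff e G) ≠ 0 := (map_ne_zero_iff _ hRA).2 he
    rw [← coeff_map, hG] at h1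
    exact hsub h1
  -- the pencil is a Morse pencil
  have hmor : MPadcPZ.MorseOver i₀ d (G.map ((algebraMap A k).comp (algebraMap R A))) := by
    have h1 := morse_shift (-(c : k)) hM
    have h2 : G.map ((algebraMap A k).comp (algebraMap R A)) =
        F.map (algebraMap A k) + C (-(c : k)) * X i₀ ^ d := by
      rw [← MvPolynomial.map_map, hG, map_sub, map_mul, map_pow, map_X, map_C, map_neg, neg_mul, sub_eq_add_neg]
      rfl
    rw [h2]
    exact h1
  -- the coefficients of `G` are in `k₀`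
  have hRk : ∀ x : R, ((x : A) : k) ∈ k₀ := by
    rintro ⟨x, hx⟩
    rw [hR] at hx
    refine Algebra.adjoin_induction (p := fun y _ => ((y : A) : k) ∈ k₀) (fun y hy => ?_) (fun r => ?_)
      (fun y z _ _ hy hz => ?_) (fun y z _ _ hy hz => ?_) hx
    · rw [hS, Finset.mem_coe, Finset.mem_image] at hy
      obtain ⟨e, he, rfl⟩ := hy
      exact h₀ e (Finset.ne_of_mem_erase he)
    · have h1 : ((algebraMap ℤ A r : A) : k) = (r : k) := by
        rw [eq_intCast]
        push_cast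
        rfl
      rw [h1]
      exact intCast_mem k₀ r
    · push_cast
      exact add_mem hy hz
    · push_cast
      exact mul_mem hy hz
  obtain ⟨ρ, hρ⟩ : ∃ ρ : R →+* k₀, ∀ x, ((ρ x : k₀) : k) = ((x : A) : k) :=
    ⟨((algebraMap A k).comp (algebraMap R A)).codRestrict k₀ hRk, fun x => rfl⟩
  have hρi : Function.Injective ρ := by
    intro x y h
    have h1 := congrArg (fun z : k₀ => (z : k)) h
    simp only [hρ] at h1
    exact hRA (hAk h1)
  have ht' : Transcendental k₀ (-(c : k)) := fun h => ht (by simpa using h.neg)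
  obtain ⟨θ, hθ⟩ : ∃ θ : Polynomial R →+* A, θ = Polynomial.eval₂RingHom (algebraMap R A) (-c) := ⟨_, rfl⟩
  have hθk : ∀ P : Polynomial R, ((θ P : A) : k) = Polynomial.aeval (-(c : k)) (P.map ρ) := by
    intro P
    have h1 : ((θ P : A) : k) = algebraMap A k (Polynomial.eval₂ (algebraMap R A) (-c) P) := by
      rw [hθ]
      rfl
    have h2 : (algebraMap k₀ k).comp ρ = (algebraMap A k).comp (algebraMap R A) := RingHom.ext fun x => hρ x
    rw [h1, Polynomial.hom_eval₂, Polynomial.aeval_def, Polynomial.eval₂_map, map_neg, h2]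
    rfl
  have hθi : Function.Injective θ := by
    rw [injective_iff_map_eq_zero]
    intro P hP
    have h1 := hθk P
    rw [hP] at h1
    have h2 : P.map ρ = 0 := by
      by_contra h3
      exact ht' ⟨_, h3, h1.symm⟩
    exact (Polynomial.map_eq_zero_iff hρi).1 h2
  have hθC : θ.comp Polynomial.C = algebraMap R A := by
    rw [hθ]
    exact RingHom.ext fun x => Polynomial.eval₂_C _ _
  have hθX : θ Polynomial.X = -c := by
    rw [hθ]
    exact Polynomial.eval₂_X _ _
  refine opened hm hd i₀ G hGh k _ (hAk.comp hRA) hmor θ hθi F hF ?_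
  rw [hθC, hθX, hG, map_neg, neg_mul, sub_neg_eq_add, sub_add_cancel]

/-- The final theorem. -/
theorem final {m d : ℕ} (hm : 3 ≤ m) (hd : 3 ≤ d) (i₀ : Fin m) (k : Type) [Field k] [CharZero k] [IsAlgClosed k]
    (A : Subalgebra ℤ k) (hA : A.FG) (F : MvPolynomial (Fin m) A) (S : Finset (Fin m →₀ ℕ))
    (hF : IsGeneralMorse i₀ d A F S) : OpenOrdinary F ∧ DenseOrdinary F := by
  have hftA : Algebra.FiniteType ℤ A := A.fg_iff_finiteType.1 hA
  have hnoeth : IsNoetherianRing A := Algebra.FiniteType.isNoetherianRing ℤ A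
  have hcz : CharZero A := (algebraMap A k).charZero
  obtain ⟨k₁, hk₁, hi₁⟩ := hF.indep
  have hco : ∀ e, coeff e (F.map (algebraMap A k)) = ((coeff e F : A) : k) := fun e => coeff_map _ _ _
  have hM : MPadcPZ.MorseOver i₀ d (F.map (algebraMap A k)) := by
    refine sys_morse (k₀ := k₁) (S := S) (by omega) (hF.hom.map _) (fun e he => ?_) ?_ hF.good
    · rw [hco]
      exact hk₁ e he
    · simp only [hco]
      exact hi₁
  obtain ⟨k₀, h₀, ht⟩ := sys_tr (k₀ := k₁) (F := F.map (algebraMap A k)) (S := S) (Finsupp.single i₀ d) hF.pencil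
    (fun e he => by
      rw [hco]
      exact hk₁ e he) (by
      simp only [hco]
      exact hi₁)
  simp only [hco] at h₀ ht
  obtain ⟨N₁, hN₁⟩ := generic_open hm hd i₀ k A hA F hF.hom hM k₀ h₀ ht
  obtain ⟨N₂, hN₂⟩ := exists_pt (1 : A) one_ne_zero
  have hex : ∀ p : ℕ, p.Prime → N₂ < p → ∃ 𝔓, 𝔓 ∈ (Ideal.span {(p : A)}).minimalPrimes := by
    intro p hp hlt
    obtain ⟨E, iE, ψ, -, hch, -, -⟩ := hN₂ p hp hlt
    have h1 : Ideal.span {(p : A)} ≤ RingHom.ker ψ := by
      rw [Ideal.span_singleton_le_iff_mem, RingHom.mem_ker, map_natCast]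
      exact CharP.cast_eq_zero E p
    have h2 : (RingHom.ker ψ).IsPrime := RingHom.ker_isPrime ψ
    obtain ⟨𝔓, h𝔓, -⟩ := Ideal.exists_minimalPrimes_le h1
    exact ⟨𝔓, h𝔓⟩
  refine ⟨⟨max N₁ N₂, fun p hp hlt => ⟨hex p hp (lt_of_le_of_lt (le_max_right _ _) hlt),
    hN₁ p hp (lt_of_le_of_lt (le_max_left _ _) hlt)⟩⟩, fun b hb => ?_⟩
  obtain ⟨N₃, hN₃⟩ := exists_bound A b hb
  refine ⟨max (max N₁ N₂) N₃, fun p hp hlt => ?_⟩
  have hlt1 : N₁ < p := lt_of_le_of_lt ((le_max_left _ _).trans (le_max_left _ _)) hlt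
  have hlt2 : N₂ < p := lt_of_le_of_lt ((le_max_right _ _).trans (le_max_left _ _)) hlt
  have hlt3 : N₃ < p := lt_of_le_of_lt (le_max_right _ _) hlt
  obtain ⟨𝔓, h𝔓⟩ := hex p hp hlt2
  obtain ⟨f, hf, hord⟩ := hN₁ p hp hlt1 𝔓 h𝔓
  have hpr : 𝔓.IsPrime := h𝔓.1.1
  have hpP : (p : A) ∈ 𝔓 := h𝔓.1.2 (Ideal.mem_span_singleton_self _)
  have hfb : f * b ∉ 𝔓 := fun h => (hpr.mem_or_mem h).elim hf (hN₃ p hp hlt3 𝔓 h𝔓)
  obtain ⟨M, hM, hle, hfbM, -⟩ := exists_maxi 𝔓 hpr hp hpP (f * b) hfb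
  exact ⟨M, hle hpP, fun h => hfbM (M.mul_mem_left f h), hord M hM hle fun h => hfbM (M.mul_mem_right b h)⟩

end MPadcGT
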