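import Pool.Agent.Lib.MP_adc574_ag_GT.Gen
import Pool.Agent.Lib.MP_adc574_ag_GT.Cmp
import Pool.Agent.Lib.MP_adc574_ag_GT.Main

/-!
# Hypersurfaces with a transcendental coefficient: ordinary reduction over dense open subsets of the fibres of `Spec A`
-/

set_option autoImplicit false

namespace MPadcGT

open MvPolynomial MPadcGM MPadcHM MPadcLZ MPadcBK MPadcOA MPadcOH MPadcPZ

/-- A transcendental element remains transcendental at the generic points of `Spec A/p`, `p` large. -/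
theorem indep_one {R A : Type} [CommRing R] [IsDomain R] [CharZero R] [Algebra.FiniteType ℤ R] [CommRing A]
    [IsDomain A] [CharZero A] [Algebra.FiniteType ℤ A] (θ : Polynomial R →+* A) (hθ : Function.Injective θ) :
    ∃ p₀ : ℕ, ∀ p : ℕ, p.Prime → p₀ < p → ∀ 𝔓 ∈ (Ideal.span {(p : A)}).minimalPrimes,
      ∀ (κ : Type) [Field κ] (φ : A →+* κ), RingHom.ker φ = 𝔓 →
        Function.Injective (Polynomial.eval₂RingHom (φ.comp (θ.comp Polynomial.C)).range.subtype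
          (φ (θ Polynomial.X))) := by
  classical
  obtain ⟨ι, hι⟩ : ∃ ι : R →+* A, ι = θ.comp Polynomial.C := ⟨_, rfl⟩
  have hιi : Function.Injective ι := by
    rw [hι]
    exact hθ.comp Polynomial.C_injective
  have h1 : ∀ P : MvPolynomial Unit R, eval₂Hom ι (fun _ => θ Polynomial.X) P = θ (uniqueAlgEquiv R Unit P) := by
    intro P
    have h2 : eval₂Hom ι (fun _ : Unit => θ Polynomial.X) = θ.comp (uniqueAlgEquiv R Unit).toRingEquiv.toRingHom := by
      refine MvPolynomial.ringHom_ext (fun r => ?_) (fun i => ?_)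
      · rw [eval₂Hom_C, hι]
        show θ (Polynomial.C r) = θ (uniqueAlgEquiv R Unit (C r))
        rw [show (C r : MvPolynomial Unit R) = algebraMap R _ r from rfl, AlgEquiv.commutes]
        rfl
      · rw [eval₂Hom_X']
        have h3 : uniqueAlgEquiv R Unit (X i) = Polynomial.X := eval₂_X (Polynomial.C : R →+* Polynomial R) _ i
        exact (congrArg θ h3).symm
    exact congrArg (fun f : MvPolynomial Unit R →+* A => f P) h2
  have ha : Function.Injective (eval₂Hom ι fun _ : Unit => θ Polynomial.X) := by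
    intro P Q hPQ
    rw [h1, h1] at hPQ
    exact (uniqueAlgEquiv R Unit).injective (hθ hPQ)
  obtain ⟨p₀, hp₀⟩ := exists_indep ι hιi (fun _ : Unit => θ Polynomial.X) ha
  refine ⟨p₀, fun p hp hlt 𝔓 h𝔓 κ _ φ hφ => ?_⟩
  rw [← hι]
  rw [injective_iff_map_eq_zero]
  intro P hP
  obtain ⟨P', rfl⟩ := Polynomial.map_surjective (φ.comp ι).rangeRestrict (φ.comp ι).rangeRestrict_surjective P
  have h3 : φ (θ P') = 0 := by
    rw [← hP, Polynomial.coe_eval₂RingHom, Polynomial.eval₂_map]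
    have h4 : (φ.comp ι).range.subtype.comp (φ.comp ι).rangeRestrict = φ.comp ι := RingHom.ext fun x => rfl
    rw [h4]
    have h5 : φ.comp θ = Polynomial.eval₂RingHom (φ.comp ι) (φ (θ Polynomial.X)) := by
      refine Polynomial.ringHom_ext (fun r => ?_) ?_
      · rw [hι]
        simp
      · simp
    exact congrArg (fun f : Polynomial R →+* κ => f P') h5
  obtain ⟨P'', rfl⟩ := (uniqueAlgEquiv R Unit).surjective P'
  have h6 := hp₀ p hp hlt 𝔓 h𝔓 P'' (by
    rw [h1, ← hφ, RingHom.mem_ker]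
    exact h3)
  refine Polynomial.ext fun n => ?_
  rw [Polynomial.coeff_map, coeff_uniqueAlgEquiv, Polynomial.coeff_zero]
  have h8 := h6 (Finsupp.single default n)
  rw [← hφ, RingHom.mem_ker] at h8
  exact Subtype.ext h8

private theorem opn_finite {A : Type*} [CommRing A] [Algebra.FiniteType ℤ A] (m : Ideal A)
    [hm : m.IsMaximal] {p : ℕ} (hp : p.Prime) (hpm : (p : A) ∈ m) : Finite (A ⧸ m) := by
  let _ := Ideal.Quotient.field m
  have h1 : Algebra.FiniteType ℤ (A ⧸ m) :=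
    Algebra.FiniteType.of_surjective (Ideal.Quotient.mkₐ ℤ m) (Ideal.Quotient.mkₐ_surjective ℤ m)
  have hj := MPadcGM.isJacobsonRing_int
  have h2 : Module.Finite ℤ (A ⧸ m) := finite_of_finite_type_of_isJacobsonRing ℤ (A ⧸ m)
  refine Module.finite_of_fg_torsion (A ⧸ m) ?_
  intro x
  refine ⟨⟨(p : ℤ), mem_nonZeroDivisors_of_ne_zero (by exact_mod_cast hp.ne_zero)⟩, ?_⟩
  show (p : ℤ) • x = 0
  have h3 : ((p : ℤ) : A ⧸ m) = 0 := by
    rw [Int.cast_natCast, ← map_natCast (Ideal.Quotient.mk m), Ideal.Quotient.eq_zero_iff_mem]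
    exact hpm
  rw [zsmul_eq_mul, h3, zero_mul]

/-- The members of a Morse pencil over `R` for `t = - c` over an extension ring of `R`: good reduction which is ordinary over
a dense open subset of every irreducible component of `Spec A/p`, `p` large. -/
theorem opened {R A : Type} [CommRing R] [IsDomain R] [CharZero R] [Algebra.FiniteType ℤ R] [CommRing A] [IsDomain A]
    [CharZero A] [Algebra.FiniteType ℤ A] {m d : ℕ} (hm : 3 ≤ m) (hd : 3 ≤ d) (i₀ : Fin m) (G : MvPolynomial (Fin m) R)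
    (hG : G.IsHomogeneous d) (Ω : Type) [Field Ω] [IsAlgClosed Ω] (j : R →+* Ω) (hj : Function.Injective j)
    (hM : MPadcPZ.MorseOver i₀ d (G.map j)) (θ : Polynomial R →+* A) (hθ : Function.Injective θ)
    (F : MvPolynomial (Fin m) A) (hFh : F.IsHomogeneous d)
    (hF : F = G.map (θ.comp Polynomial.C) - C (θ Polynomial.X) * X i₀ ^ d) :
    ∃ N : ℕ, ∀ p : ℕ, p.Prime → N < p → ∀ 𝔓 ∈ (Ideal.span {(p : A)}).minimalPrimes,
      ∃ f ∉ 𝔓, ∀ 𝔫 : Ideal A, 𝔫.IsMaximal → 𝔓 ≤ 𝔫 → f ∉ 𝔫 → OrdinaryAt F 𝔫 := by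
  classical
  have hnoeth : IsNoetherianRing A := Algebra.FiniteType.isNoetherianRing ℤ A
  obtain ⟨Φ, hΦ⟩ := unif_morse i₀ d
  obtain ⟨M, _, hM0, hM'⟩ := hΦ R G hG Ω j hj hM
  have ha : θ (Polynomial.C (evc G M)) ≠ 0 := by
    rw [map_ne_zero_iff θ hθ]
    exact Polynomial.C_ne_zero.2 hM0
  obtain ⟨N₁, hN₁⟩ := exists_bound A _ ha
  obtain ⟨N₂, hN₂⟩ := indep_one θ hθ
  obtain ⟨N₃, hN₃⟩ := gen hm hd i₀
  refine ⟨max (max N₁ N₂) (max N₃ (d * m)), fun p hp hlt 𝔓 h𝔓 => ?_⟩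
  have hpF : Fact p.Prime := ⟨hp⟩
  have hlt1 : N₁ < p := lt_of_le_of_lt ((le_max_left _ _).trans (le_max_left _ _)) hlt
  have hlt2 : N₂ < p := lt_of_le_of_lt ((le_max_right _ _).trans (le_max_left _ _)) hlt
  have hlt3 : N₃ < p := lt_of_le_of_lt ((le_max_left _ _).trans (le_max_right _ _)) hlt
  have hlt4 : d * m < p := lt_of_le_of_lt ((le_max_right _ _).trans (le_max_right _ _)) hlt
  have hpr : 𝔓.IsPrime := h𝔓.1.1
  have hpP : (p : A) ∈ 𝔓 := h𝔓.1.2 (Ideal.mem_span_singleton_self _)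
  have hchB : CharP (A ⧸ 𝔓) p := by
    rw [CharP.charP_iff_prime_eq_zero hp, ← map_natCast (Ideal.Quotient.mk 𝔓), Ideal.Quotient.eq_zero_iff_mem]
    exact hpP
  obtain ⟨κ, iκ, iac, ι, hι⟩ : ∃ (κ : Type) (_ : Field κ) (_ : IsAlgClosed κ) (ι : (A ⧸ 𝔓) →+* κ),
      Function.Injective ι := by
    refine ⟨AlgebraicClosure (FractionRing (A ⧸ 𝔓)), inferInstance, inferInstance,
      (algebraMap (FractionRing (A ⧸ 𝔓)) (AlgebraicClosure (FractionRing (A ⧸ 𝔓)))).comp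
        (algebraMap (A ⧸ 𝔓) (FractionRing (A ⧸ 𝔓))), ?_⟩
    exact (algebraMap (FractionRing (A ⧸ 𝔓)) _).injective.comp (IsFractionRing.injective _ _)
  have hchκ : CharP κ p := charP_of_injective_ringHom hι p
  obtain ⟨φ, hφ⟩ : ∃ φ : A →+* κ, φ = ι.comp (Ideal.Quotient.mk 𝔓) := ⟨_, rfl⟩
  have hker : RingHom.ker φ = 𝔓 := by
    ext x
    rw [RingHom.mem_ker, hφ, RingHom.comp_apply, map_eq_zero_iff ι hι, Ideal.Quotient.eq_zero_iff_mem]
  obtain ⟨ψ, hψ⟩ : ∃ ψ : R →+* κ, ψ = φ.comp (θ.comp Polynomial.C) := ⟨_, rfl⟩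
  have hinj := hN₂ p hp hlt2 𝔓 h𝔓 κ φ hker
  rw [← hψ] at hinj
  have hchS : CharP ψ.range p := inferInstance
  have hev : ψ.rangeRestrict (evc G M) ≠ 0 := by
    intro h0
    have h1 : φ (θ (Polynomial.C (evc G M))) = 0 := by
      have h2 := congrArg Subtype.val h0
      rw [hψ] at h2
      exact h2
    rw [← RingHom.mem_ker, hker] at h1
    exact hN₁ p hp hlt1 𝔓 h𝔓 h1
  have hgd := hN₃ p hlt3.le ψ.range (G.map ψ.rangeRestrict) (hG.map _) (fun k _ _ j' hj' => by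
    rw [MvPolynomial.map_map]
    exact hM' k (j'.comp ψ.rangeRestrict) ((map_ne_zero_iff j' hj').2 hev)) κ _ hinj
  have hFκ : (G.map ψ.rangeRestrict).map ((Polynomial.eval₂RingHom ψ.range.subtype (φ (θ Polynomial.X))).comp
      Polynomial.C) - C (Polynomial.eval₂RingHom ψ.range.subtype (φ (θ Polynomial.X)) Polynomial.X) * X i₀ ^ d =
      (F.map (Ideal.Quotient.mk 𝔓)).map ι := by
    have h1 : ((Polynomial.eval₂RingHom ψ.range.subtype (φ (θ Polynomial.X))).comp Polynomial.C).comp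
        ψ.rangeRestrict = φ.comp (θ.comp Polynomial.C) := by
      rw [← hψ]
      refine RingHom.ext fun x => ?_
      rw [RingHom.comp_apply, RingHom.comp_apply, Polynomial.coe_eval₂RingHom, Polynomial.eval₂_C]
      rfl
    rw [MvPolynomial.map_map, MvPolynomial.map_map, h1, ← hφ, hF, Polynomial.coe_eval₂RingHom, Polynomial.eval₂_X,
      map_sub, map_mul, map_pow, map_X, map_C, MvPolynomial.map_map]
  rw [hFκ] at hgd
  obtain ⟨f', hf', hsp⟩ := spread p ι hι (F.map (Ideal.Quotient.mk 𝔓)) hgd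
  obtain ⟨f, rfl⟩ := Ideal.Quotient.mk_surjective f'
  refine ⟨f, fun hf => hf' (Ideal.Quotient.eq_zero_iff_mem.2 hf), fun 𝔫 h𝔫 hle hf𝔫 => ?_⟩
  let iE : Field (A ⧸ 𝔫) := Ideal.Quotient.field 𝔫
  have hpn : (p : A) ∈ 𝔫 := hle hpP
  have hfinE : Finite (A ⧸ 𝔫) := opn_finite 𝔫 hp hpn
  have hchE : CharP (A ⧸ 𝔫) p := by
    rw [CharP.charP_iff_prime_eq_zero hp, ← map_natCast (Ideal.Quotient.mk 𝔫), Ideal.Quotient.eq_zero_iff_mem]
    exact hpn
  have hg2 := hsp (A ⧸ 𝔫) (Ideal.Quotient.factor hle) (by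
    rw [Ideal.Quotient.factor_mk]
    intro h0
    exact hf𝔫 (Ideal.Quotient.eq_zero_iff_mem.1 h0))
  have hFE : (F.map (Ideal.Quotient.mk 𝔓)).map (Ideal.Quotient.factor hle) = (F.map (Ideal.Quotient.mk 𝔫)).map
      (RingHom.id (A ⧸ 𝔫)) := by
    rw [MvPolynomial.map_map, MvPolynomial.map_map, RingHom.id_comp]
    rfl
  rw [hFE] at hg2
  obtain ⟨V, c, h, hh, hC, hs, hdj⟩ := hg2
  refine ⟨A ⧸ 𝔫, iE, Ideal.Quotient.mk 𝔫, Ideal.Quotient.mk_surjective, Ideal.mk_ker, ?_⟩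
  exact bk_of p (RingHom.id (A ⧸ 𝔫)) hm hd hlt4 (F.map (Ideal.Quotient.mk 𝔫)) (hFh.map _) hh hC hs hdj

end MPadcGT
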