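import Pool.Agent.Lib.MP_adc574_ag_GT.Pt

/-!
# Good members of the specialisations of a Morse pencil
-/

set_option autoImplicit false

namespace MPadcGT

open MvPolynomial MPadcGM MPadcHM MPadcLZ MPadcBK MPadcOA MPadcOH MPadcPZ

private theorem sp_max {R E k : Type} [CommRing R] [Field E] [Field k] [Algebra E k] [Algebra.IsAlgebraic E k]
    (ψ : R →+* E) (hψ : Function.Surjective ψ) (τ : k) :
    (RingHom.ker (Polynomial.eval₂RingHom ((algebraMap E k).comp ψ) τ)).IsMaximal := by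
  have h1 : Polynomial.eval₂RingHom ((algebraMap E k).comp ψ) τ =
      (Polynomial.aeval τ : Polynomial E →ₐ[E] k).toRingHom.comp (Polynomial.mapRingHom ψ) := by
    apply Polynomial.ringHom_ext
    · intro a
      simp
    · simp
  rw [h1, ← RingHom.comap_ker]
  have hpr : (RingHom.ker (Polynomial.aeval τ : Polynomial E →ₐ[E] k).toRingHom).IsPrime := RingHom.ker_isPrime _
  have hne : RingHom.ker (Polynomial.aeval τ : Polynomial E →ₐ[E] k).toRingHom ≠ ⊥ := by
    obtain ⟨P, hP, hP0⟩ := Algebra.IsAlgebraic.isAlgebraic (R := E) τ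
    intro h
    apply hP
    have h2 : P ∈ RingHom.ker (Polynomial.aeval τ : Polynomial E →ₐ[E] k).toRingHom := hP0
    rwa [h, Ideal.mem_bot] at h2
  have hmx : (RingHom.ker (Polynomial.aeval τ : Polynomial E →ₐ[E] k).toRingHom).IsMaximal :=
    IsPrime.to_maximal_ideal hne
  exact Ideal.comap_isMaximal_of_surjective _ (Polynomial.map_surjective ψ hψ)

/-- A Morse pencil over a finitely generated ring has in every large characteristic a good member outside of `h = 0`. -/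
theorem special {R : Type} [CommRing R] [IsDomain R] [CharZero R] [Algebra.FiniteType ℤ R] {m d : ℕ} (hm : 3 ≤ m)
    (hd : 3 ≤ d) (i₀ : Fin m) (G : MvPolynomial (Fin m) R) (hG : G.IsHomogeneous d) (Ω : Type) [Field Ω] [IsAlgClosed Ω]
    (j : R →+* Ω) (hj : Function.Injective j) (hM : MPadcPZ.MorseOver i₀ d (G.map j)) (h : Polynomial R) (hh : h ≠ 0) :
    ∃ N : ℕ, ∀ (p : ℕ) [Fact p.Prime], N < p → ∃ (k : Type) (_ : Field k) (_ : IsAlgClosed k) (_ : CharP k p)
      (χ : Polynomial R →+* k), (RingHom.ker χ).IsMaximal ∧ χ h ≠ 0 ∧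
        Gd p d (G.map (χ.comp Polynomial.C) - C (χ Polynomial.X) * X i₀ ^ d) := by
  classical
  obtain ⟨Φ, hΦ⟩ := unif_morse i₀ d
  obtain ⟨M, _, hM0, hM'⟩ := hΦ R G hG Ω j hj hM
  have ha : evc G M * h.leadingCoeff ≠ 0 := mul_ne_zero hM0 (Polynomial.leadingCoeff_ne_zero.2 hh)
  obtain ⟨N₁, hN₁⟩ := exists_pt _ ha
  obtain ⟨p₀, hp₀⟩ := few hm hd i₀ (1 / 4) (by norm_num)
  refine ⟨max N₁ p₀, fun p hpF hlt => ?_⟩
  have hp : p.Prime := Fact.out
  obtain ⟨E, iE, ψ, hfin, hch, hsur, hψ⟩ := hN₁ p hp (lt_of_le_of_lt (le_max_left _ _) hlt)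
  rw [map_mul] at hψ
  obtain ⟨ψ', hψ'⟩ : ∃ ψ' : R →+* AlgebraicClosure E, ψ' = (algebraMap E (AlgebraicClosure E)).comp ψ := ⟨_, rfl⟩
  have hinj := (algebraMap E (AlgebraicClosure E)).injective
  have hchk : CharP (AlgebraicClosure E) p := charP_of_injective_algebraMap hinj p
  have hmor := hM' (AlgebraicClosure E) ψ' (by
    rw [hψ', RingHom.comp_apply]
    exact (map_ne_zero_iff _ hinj).2 (left_ne_zero_of_mul hψ))
  have hlc : ψ' h.leadingCoeff ≠ 0 := by
    rw [hψ', RingHom.comp_apply]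
    exact (map_ne_zero_iff _ hinj).2 (right_ne_zero_of_mul hψ)
  obtain ⟨r, hr⟩ : ∃ r, r = h.natDegree + 2 := ⟨_, rfl⟩
  obtain ⟨Y, hYc, hYf⟩ := card_fix (k := AlgebraicClosure E) p r (by omega)
  obtain ⟨Z, hZ⟩ : ∃ Z : Finset (AlgebraicClosure E), Z = Y.filter fun τ => ¬ Gd p d (G.map ψ' - C τ * X i₀ ^ d) :=
    ⟨_, rfl⟩
  have hZc : (Z.card : ℝ) ≤ 1 / 4 * (p : ℝ) ^ r := by
    refine hp₀ p (le_of_lt (lt_of_le_of_lt (le_max_right _ _) hlt)) (AlgebraicClosure E) (G.map ψ') (hG.map _)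
      ⟨hmor.inf, hmor.lef⟩ r (by omega) Z fun τ hτ => ?_
    rw [hZ, Finset.mem_filter] at hτ
    exact ⟨hYf τ hτ.1, hτ.2⟩
  have hWc : (h.map ψ').roots.toFinset.card ≤ h.natDegree :=
    ((Multiset.toFinset_card_le _).trans (Polynomial.card_roots' _)).trans Polynomial.natDegree_map_le
  have hmap0 : h.map ψ' ≠ 0 := by
    intro h0
    have h1 := congrArg (fun P => P.coeff h.natDegree) h0
    simp only [Polynomial.coeff_map, Polynomial.coeff_zero] at h1
    exact hlc h1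
  have hpow : (h.natDegree : ℝ) < 1 / 2 * (p : ℝ) ^ r := by
    have h1 : h.natDegree + 2 < 2 ^ (h.natDegree + 2) := Nat.lt_two_pow_self
    have h2 : 2 ^ (h.natDegree + 1) ≤ p ^ (h.natDegree + 1) := Nat.pow_le_pow_left hp.two_le _
    have h3 : h.natDegree + 1 < 2 ^ (h.natDegree + 1) := Nat.lt_two_pow_self
    have h4 : 2 * (h.natDegree + 1) < p ^ (h.natDegree + 2) := by
      calc 2 * (h.natDegree + 1) < 2 * 2 ^ (h.natDegree + 1) := by omega
        _ ≤ p * p ^ (h.natDegree + 1) := Nat.mul_le_mul hp.two_le h2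
        _ = p ^ (h.natDegree + 2) := by ring
    rw [hr]
    have h5 : (2 * (h.natDegree + 1 : ℝ)) < (p : ℝ) ^ (h.natDegree + 2) := by exact_mod_cast h4
    linarith
  have hex : ∃ τ ∈ Y, τ ∉ Z ∧ τ ∉ (h.map ψ').roots.toFinset := by
    by_contra hno
    push Not at hno
    have h1 : Y ⊆ Z ∪ (h.map ψ').roots.toFinset := by
      intro τ hτ
      rw [Finset.mem_union]
      by_cases h2 : τ ∈ Z
      · exact Or.inl h2
      · exact Or.inr (hno τ hτ h2)
    have h2 := (Finset.card_le_card h1).trans (Finset.card_union_le _ _)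
    rw [hYc] at h2
    have h3 : (p : ℝ) ^ r ≤ Z.card + h.natDegree := by
      have h4 : p ^ r ≤ Z.card + h.natDegree := h2.trans (Nat.add_le_add_left hWc _)
      exact_mod_cast h4
    have h5 : (0 : ℝ) < (p : ℝ) ^ r := by
      have := hp.pos
      positivity
    linarith
  obtain ⟨τ, hτY, hτZ, hτW⟩ := hex
  have hgd : Gd p d (G.map ψ' - C τ * X i₀ ^ d) := by
    by_contra h1
    apply hτZ
    rw [hZ, Finset.mem_filter]
    exact ⟨hτY, h1⟩
  refine ⟨AlgebraicClosure E, inferInstance, inferInstance, hchk, Polynomial.eval₂RingHom ψ' τ, ?_, ?_, ?_⟩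
  · rw [hψ']
    exact sp_max ψ hsur τ
  · rw [Polynomial.coe_eval₂RingHom, ← Polynomial.eval_map]
    intro h0
    apply hτW
    rw [Multiset.mem_toFinset, Polynomial.mem_roots hmap0]
    exact h0
  · have h1 : (Polynomial.eval₂RingHom ψ' τ).comp Polynomial.C = ψ' := RingHom.ext fun x => Polynomial.eval₂_C _ _
    rw [h1, Polynomial.coe_eval₂RingHom, Polynomial.eval₂_X]
    exact hgd

end MPadcGT
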